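import Pool.Agent.Helper71.LA.LDec
import Pool.Agent.Helper71.MR.Fin

open Complex Filter Topology MeasureTheory Set
open Pool.Agent.Helper57.Zeta
open Pool.Agent.Helper71.MR Pool.Agent.Helper71.MA

namespace Pool.Agent.Helper71.LA

theorem sys_ms : Sys ms A0 cw :=
  ⟨ms_meas, A0_pos, ms_bd, ms_kr, fun _ hw t => ms_Aw hw t, ms_right⟩

/-- a one-sided bound on a window controls the mean -/
theorem mean_F {F : ℝ → ℝ} {A : ℝ} {c : ℂ → ℂ} (hS : Sys F A c) {σ : ℝ} (hσ : |σ| = 1) :
    ∃ C : ℝ, 0 ≤ C ∧ ∀ K s b : ℝ, 0 ≤ K → 3 / 4 * |s| ≤ Real.exp (2 * b) →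
      (∀ t ∈ Icc (s - b) (s + b), σ * F t ≤ K) →
      ∫ v in Icc (-1:ℝ) 1, |F (s + v)| ≤ C * (K + 1) := by
  obtain ⟨C5, hC5, h⟩ := MA.L1 hS hσ
  have hκ := κ0_nonneg
  set κ1 : ℝ := Real.exp (-(Real.pi * Real.exp 2)) with hκ1
  have hκ10 : 0 < κ1 := Real.exp_pos _
  refine ⟨κ1⁻¹ * (2 * κ0 + C5), by positivity, ?_⟩
  intro K s b hK hb hw
  have h1 := h K s b hK hb hw
  have hint : Integrable (fun v : ℝ => |F (s + v)| * kr v) := by
    refine (MA.abs_kr_int hS s).norm.congr ?_
    filter_upwards with v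
    rw [norm_mul, Real.norm_eq_abs, Real.norm_of_nonneg (kr_pos v).le]
  have h2 : ∫ v in Icc (-1:ℝ) 1, |F (s + v)| * kr v ≤ ∫ v : ℝ, |F (s + v)| * kr v :=
    setIntegral_le_integral hint (by
      filter_upwards with v
      exact mul_nonneg (abs_nonneg _) (kr_pos v).le)
  have hbd : ∀ v ∈ Icc (-1:ℝ) 1, |F (s + v)| ≤ κ1⁻¹ * (|F (s + v)| * kr v) := by
    intro v hv
    have h3 : κ1 ≤ kr v := by
      refine le_trans ?_ (kr_ge v)
      rw [hκ1]
      apply Real.exp_le_exp.mpr
      apply neg_le_neg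
      apply mul_le_mul_of_nonneg_left _ Real.pi_pos.le
      apply Real.exp_le_exp.mpr
      have := abs_le.mpr ⟨hv.1, hv.2⟩
      linarith
    have h4 : 1 ≤ κ1⁻¹ * kr v := by
      rw [inv_mul_eq_div, one_le_div hκ10]; exact h3
    calc |F (s + v)| = |F (s + v)| * 1 := (mul_one _).symm
      _ ≤ |F (s + v)| * (κ1⁻¹ * kr v) := mul_le_mul_of_nonneg_left h4 (abs_nonneg _)
      _ = _ := by ring
  have hi2 : IntegrableOn (fun v : ℝ => κ1⁻¹ * (|F (s + v)| * kr v)) (Icc (-1) 1) :=
    (hint.const_mul _).integrableOn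
  have hi1 : IntegrableOn (fun v : ℝ => |F (s + v)|) (Icc (-1) 1) := by
    refine Integrable.mono' hi2 ?_ ?_
    · apply Measurable.aestronglyMeasurable
      have := hS.meas
      fun_prop
    · filter_upwards [self_mem_ae_restrict measurableSet_Icc] with v hv
      rw [Real.norm_eq_abs, abs_abs]
      exact hbd v hv
  have h5 := setIntegral_mono_on hi1 hi2 measurableSet_Icc hbd
  rw [integral_const_mul] at h5
  calc _ ≤ κ1⁻¹ * ∫ v in Icc (-1:ℝ) 1, |F (s + v)| * kr v := h5
    _ ≤ κ1⁻¹ * (2 * K * κ0 + C5) := mul_le_mul_of_nonneg_left (h2.trans h1) (by positivity)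
    _ ≤ κ1⁻¹ * ((2 * κ0 + C5) * (K + 1)) := by
        apply mul_le_mul_of_nonneg_left _ (by positivity)
        nlinarith [mul_nonneg hK hκ, mul_nonneg hK hC5]
    _ = _ := by ring

/-- multiplicative form -/
theorem mean_A {F : ℝ → ℝ} {A : ℝ} {c : ℂ → ℂ} (hS : Sys F A c) {B : ℝ → ℝ} {D : ℝ}
    (hD : 0 ≤ D) (hr : ∀ t : ℝ, 0 ≤ t → |B (Real.exp t) * Real.exp (-t / 2) - F t| ≤ D) {σ : ℝ} (hσ : |σ| = 1) :
    ∃ C : ℝ, 0 < C ∧ ∀ X K : ℝ, C ≤ X → 0 ≤ K →
      (∀ x ∈ Icc (X / √(Real.log X)) (2 * X * √(Real.log X)), σ * B x ≤ K * √x) →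
      ∫ x in X..(2 * X), |B x| ≤ C * (K + 1) * (X * √X) := by
  obtain ⟨C0, hC0, h0⟩ := mean_F hS hσ
  set C : ℝ := 8 * (C0 * (D + 1) + 2 * D + 1) with hC
  have hCp : 8 ≤ C := by
    have : 0 ≤ C0 * (D + 1) := by positivity
    rw [hC]; linarith
  refine ⟨C, by linarith, ?_⟩
  intro X K hX hK hw
  have hX8 : 8 ≤ X := hCp.trans hX
  have hX0 : 0 < X := by linarith
  have hlog2 : Real.log 8 ≤ Real.log X := Real.log_le_log (by norm_num) hX8
  have hl8 : 2 < Real.log 8 := by
    have h1 := Real.log_two_gt_d9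
    have : Real.log 8 = 3 * Real.log 2 := by
      rw [show (8:ℝ) = 2 ^ 3 by norm_num, Real.log_pow]; norm_num
    rw [this]; linarith
  have hl1 : 2 < Real.log X := by linarith
  have hlog2' : Real.log 2 < 1 := by have := Real.log_two_lt_d9; linarith
  have hlog20 : 0 < Real.log 2 := Real.log_pos (by norm_num)
  set s : ℝ := Real.log X + Real.log 2 / 2 with hs
  have hs0 : 0 < s := by rw [hs]; linarith
  have hs2 : s ≤ 2 * Real.log X := by rw [hs]; linarith
  have hs1 : 1 < s := by rw [hs]; linarith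
  set b : ℝ := Real.log s / 2 with hb
  have hb2 : Real.exp (2 * b) = s := by
    rw [hb, mul_div_cancel₀ _ (two_ne_zero), Real.exp_log hs0]
  have heb : Real.exp b = √s := by
    have h1 : Real.exp b * Real.exp b = s := by rw [← Real.exp_add, ← two_mul, hb2]
    rw [← h1, Real.sqrt_mul_self (Real.exp_pos b).le]
  have hes : Real.exp s = X * √2 := by
    rw [hs, Real.exp_add, Real.exp_log hX0]
    congr 1
    rw [Real.sqrt_eq_rpow, Real.rpow_def_of_pos (by norm_num : (0:ℝ) < 2)]
    congr 1; ring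
  have hr2 : √s ≤ √2 * √(Real.log X) := by
    rw [← Real.sqrt_mul (by norm_num)]
    exact Real.sqrt_le_sqrt hs2
  have hrs : 0 < √s := Real.sqrt_pos.mpr hs0
  have hrl : 0 < √(Real.log X) := Real.sqrt_pos.mpr (by linarith)
  have hr22 : √2 * √2 = (2:ℝ) := Real.mul_self_sqrt (by norm_num)
  have hr20 : (0:ℝ) < √2 := Real.sqrt_pos.mpr (by norm_num)
  have hlow : X / √(Real.log X) ≤ Real.exp (s - b) := by
    rw [Real.exp_sub, heb, hes, div_le_div_iff₀ hrl hrs]
    calc X * √s ≤ X * (√2 * √(Real.log X)) := mul_le_mul_of_nonneg_left hr2 hX0.le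
      _ = _ := by ring
  have hupp : Real.exp (s + b) ≤ 2 * X * √(Real.log X) := by
    rw [Real.exp_add, heb, hes]
    calc X * √2 * √s ≤ X * √2 * (√2 * √(Real.log X)) := mul_le_mul_of_nonneg_left hr2 (by positivity)
      _ = (√2 * √2) * X * √(Real.log X) := by ring
      _ = _ := by rw [hr22]
  have hlogs : Real.log s ≤ s - 1 := Real.log_le_sub_one_of_pos hs0
  have hsb : 0 ≤ s - b := by rw [hb]; linarith
  have hwin : ∀ t ∈ Icc (s - b) (s + b), σ * F t ≤ K + D := by
    intro t ht
    have ht0 : 0 ≤ t := hsb.trans ht.1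
    have h1 := hr t ht0
    have h2 := hw (Real.exp t) ⟨hlow.trans (Real.exp_le_exp.mpr ht.1), (Real.exp_le_exp.mpr ht.2).trans hupp⟩
    rw [← Real.exp_half] at h2
    have h3 : σ * (B (Real.exp t) * Real.exp (-t / 2)) ≤ K := by
      have h4 := mul_le_mul_of_nonneg_right h2 (Real.exp_pos (-t / 2)).le
      have h5 : Real.exp (t / 2) * Real.exp (-t / 2) = 1 := by
        rw [← Real.exp_add, show t / 2 + -t / 2 = 0 by ring, Real.exp_zero]
      calc _ = σ * B (Real.exp t) * Real.exp (-t / 2) := by ring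
        _ ≤ K * Real.exp (t / 2) * Real.exp (-t / 2) := h4
        _ = K := by rw [mul_assoc, h5, mul_one]
    have h6 : |σ * (B (Real.exp t) * Real.exp (-t / 2) - F t)| ≤ D := by
      rw [abs_mul, hσ, one_mul]; exact h1
    have h7 := (abs_le.mp h6).1
    have h8 : σ * (B (Real.exp t) * Real.exp (-t / 2) - F t) =
        σ * (B (Real.exp t) * Real.exp (-t / 2)) - σ * F t := by ring
    linarith
  have h1 := h0 (K + D) s b (by positivity) (by rw [hb2, abs_of_pos hs0]; linarith) hwin
  -- change of variables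
  have h2 : ∫ x in X..(2 * X), |B x| = ∫ u : ℝ, Real.exp u * (Icc (Real.log X) (Real.log X + Real.log 2)).indicator
      (fun u => |B (Real.exp u)|) u := by
    rw [intervalIntegral.integral_of_le (by linarith), ← integral_Icc_eq_integral_Ioc]
    have e1 : ∫ x in Icc X (2 * X), |B x| = ∫ x in Ioi (0:ℝ), (Icc X (2 * X)).indicator (fun x => |B x|) x := by
      rw [setIntegral_indicator measurableSet_Icc]
      congr 2
      rw [eq_comm, inter_eq_right]
      intro x hx
      exact hX0.trans_le hx.1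
    rw [e1, int_exp_sub]
    apply integral_congr_ae
    filter_upwards with u
    congr 1
    have e2 : u ∈ Icc (Real.log X) (Real.log X + Real.log 2) ↔ Real.exp u ∈ Icc X (2 * X) := by
      rw [mem_Icc, mem_Icc, ← Real.log_mul hX0.ne' (by norm_num), mul_comm X 2,
        Real.log_le_iff_le_exp hX0, Real.le_log_iff_exp_le (by positivity)]
    by_cases hu : u ∈ Icc (Real.log X) (Real.log X + Real.log 2)
    · rw [indicator_of_mem hu, indicator_of_mem (e2.mp hu)]
    · rw [indicator_of_notMem hu, indicator_of_notMem (fun h => hu (e2.mpr h))]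
  have hsub : ∀ v : ℝ, s + v ∈ Icc (Real.log X) (Real.log X + Real.log 2) → v ∈ Icc (-1:ℝ) 1 := by
    intro v hv
    have := hv.1
    have := hv.2
    constructor <;> linarith
  have hr2X : √(2 * X) ≤ 2 * √X := by
    rw [Real.sqrt_mul (by norm_num)]
    apply mul_le_mul_of_nonneg_right _ (Real.sqrt_nonneg _)
    rw [Real.sqrt_le_left (by norm_num)]; norm_num
  -- pointwise bound
  have h3 : ∀ v : ℝ, Real.exp (s + v) * (Icc (Real.log X) (Real.log X + Real.log 2)).indicator
      (fun u => |B (Real.exp u)|) (s + v) ≤ (Icc (-1:ℝ) 1).indicator (fun v => (4 * (X * √X)) * (|F (s + v)| + D)) v := by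
    intro v
    by_cases hv : s + v ∈ Icc (Real.log X) (Real.log X + Real.log 2)
    · rw [indicator_of_mem hv, indicator_of_mem (hsub v hv)]
      have hv0 : 0 ≤ s + v := by have := hv.1; linarith
      have e1 : Real.exp (s + v) ≤ 2 * X := by
        rw [← Real.exp_log (by positivity : 0 < 2 * X), mul_comm 2 X, Real.log_mul hX0.ne' (by norm_num)]
        exact Real.exp_le_exp.mpr hv.2
      have e2 := hr _ hv0
      have e3 : |B (Real.exp (s + v)) * Real.exp (-(s + v) / 2)| ≤ |F (s + v)| + D := by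
        have := abs_sub_abs_le_abs_sub (B (Real.exp (s + v)) * Real.exp (-(s + v) / 2)) (F (s + v))
        linarith
      rw [abs_mul, abs_of_pos (Real.exp_pos _)] at e3
      have e4 : |B (Real.exp (s + v))| ≤ √(2 * X) * (|F (s + v)| + D) := by
        have e5 : √(Real.exp (s + v)) * Real.exp (-(s + v) / 2) = 1 := by
          rw [← Real.exp_half, ← Real.exp_add, show (s + v) / 2 + -(s + v) / 2 = 0 by ring, Real.exp_zero]
        calc |B (Real.exp (s + v))| = √(Real.exp (s + v)) * (|B (Real.exp (s + v))| * Real.exp (-(s + v) / 2)) := by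
              linear_combination (-|B (Real.exp (s + v))|) * e5
          _ ≤ √(2 * X) * (|F (s + v)| + D) := mul_le_mul (Real.sqrt_le_sqrt e1) e3 (by positivity) (Real.sqrt_nonneg _)
      calc Real.exp (s + v) * |B (Real.exp (s + v))| ≤ (2 * X) * ((2 * √X) * (|F (s + v)| + D)) := by
            apply mul_le_mul e1 _ (abs_nonneg _) (by positivity)
            exact e4.trans (mul_le_mul_of_nonneg_right hr2X (by positivity))
        _ = _ := by ring
    · rw [indicator_of_notMem hv, mul_zero]
      apply indicator_nonneg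
      intro v _
      positivity
  have hFi : IntegrableOn (fun v : ℝ => |F (s + v)|) (Icc (-1) 1) := by
    have hA := hS.pos
    refine Integrable.mono' (g := fun _ => A * Real.exp (3 / 4 * (|s| + 1))) (integrableOn_const (by simp)) ?_ ?_
    · apply Measurable.aestronglyMeasurable
      have := hS.meas
      fun_prop
    · filter_upwards [self_mem_ae_restrict measurableSet_Icc] with v hv
      rw [Real.norm_eq_abs, abs_abs]
      refine (hS.bd _).trans (mul_le_mul_of_nonneg_left ?_ hA.le)
      apply Real.exp_le_exp.mpr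
      have e1 := abs_add_le s v
      have e2 := abs_le.mpr ⟨hv.1, hv.2⟩
      linarith
  have hgi : IntegrableOn (fun v : ℝ => (4 * (X * √X)) * (|F (s + v)| + D)) (Icc (-1) 1) :=
    (hFi.add (integrableOn_const (by simp))).const_mul _
  rw [h2, ← integral_add_left_eq_self _ s]
  calc ∫ v : ℝ, Real.exp (s + v) * (Icc (Real.log X) (Real.log X + Real.log 2)).indicator
          (fun u => |B (Real.exp u)|) (s + v)
      ≤ ∫ v : ℝ, (Icc (-1:ℝ) 1).indicator (fun v => (4 * (X * √X)) * (|F (s + v)| + D)) v := by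
        apply integral_mono_of_nonneg
        · filter_upwards with v
          apply mul_nonneg (Real.exp_pos _).le
          apply indicator_nonneg
          intro v _
          exact abs_nonneg _
        · rw [integrable_indicator_iff measurableSet_Icc]; exact hgi
        · filter_upwards with v
          exact h3 v
    _ = (4 * (X * √X)) * ((∫ v in Icc (-1:ℝ) 1, |F (s + v)|) + 2 * D) := by
        rw [integral_indicator measurableSet_Icc, integral_const_mul, integral_add hFi (integrableOn_const (by simp))]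
        congr 2
        rw [setIntegral_const]
        simp
        norm_num
    _ ≤ (4 * (X * √X)) * (C0 * (K + D + 1) + 2 * D) := by
        apply mul_le_mul_of_nonneg_left _ (by positivity)
        linarith
    _ ≤ C * (K + 1) * (X * √X) := by
        have e1 : 4 * (C0 * (K + D + 1) + 2 * D) ≤ C * (K + 1) := by
          rw [hC]
          have f1 : 0 ≤ C0 * K * D := by positivity
          have f2 : 0 ≤ C0 * K := by positivity
          have f3 : 0 ≤ K * D := by positivity
          have f4 : 0 ≤ C0 * D := by positivity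
          nlinarith
        have e2 : 0 ≤ X * √X := by positivity
        nlinarith

end Pool.Agent.Helper71.LA
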