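import Pool.Agent.Helper71.LA.Pois
import Pool.Agent.Helper71.MR.Rf2
import Pool.Agent.Helper71.MR.Ms

open Filter Topology MeasureTheory Set
open Pool.Agent.Helper18.ES (kap K K_pos mu mu_le mu_conv summable_kap)
open Pool.Agent.Helper71.MR (kap_int kap_zero_int mu_zero summable_54)

namespace Pool.Agent.Helper71.LA

/-- inner sum of the dual part -/
noncomputable def q (y : ℝ) : ℝ := ∑' k : ℕ, mu k / k * U (√(k * y))

theorem q_meas : Measurable q := by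
  unfold q
  apply Measurable.tsum
  intro k
  have := U_cont.measurable
  fun_prop

theorem U_sqrt_le {y : ℝ} (hy : 0 < y) : |U (√y)| ≤ 3 * y ^ (-(1 / 4) : ℝ) := by
  have h := U_le_rt (Real.sqrt_pos.mpr hy)
  rw [Real.sqrt_eq_rpow, ← Real.rpow_mul hy.le] at h
  rw [Real.sqrt_eq_rpow]
  norm_num at h ⊢
  exact h

theorem q_term {y : ℝ} (hy : 0 < y) (k : ℕ) : |mu k / k * U (√(k * y))| ≤
    3 * y ^ (-(1 / 4) : ℝ) * (1 / (k : ℝ) ^ (5 / 4 : ℝ)) := by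
  rcases Nat.eq_zero_or_pos k with h | h
  · subst h
    rw [mu_zero]
    have : 0 ≤ 3 * y ^ (-(1 / 4) : ℝ) * (1 / ((0 : ℕ) : ℝ) ^ (5 / 4 : ℝ)) := by positivity
    simpa using this
  have hk : (0:ℝ) < k := by exact_mod_cast h
  rw [abs_mul, abs_div, abs_of_pos hk]
  have h1 := U_sqrt_le (y := k * y) (by positivity)
  rw [Real.mul_rpow hk.le hy.le] at h1
  calc |mu k| / k * |U (√(k * y))| ≤ 1 / k * (3 * ((k : ℝ) ^ (-(1 / 4) : ℝ) * y ^ (-(1 / 4) : ℝ))) := by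
        apply mul_le_mul _ h1 (abs_nonneg _) (by positivity)
        exact div_le_div_of_nonneg_right (mu_le k) hk.le
    _ = 3 * y ^ (-(1 / 4) : ℝ) * (1 / (k : ℝ) ^ (5 / 4 : ℝ)) := by
        rw [show (5 / 4 : ℝ) = 1 + 1 / 4 by norm_num, Real.rpow_add hk, Real.rpow_one, Real.rpow_neg hk.le]
        field_simp

theorem q_summable {y : ℝ} (hy : 0 < y) : Summable (fun k : ℕ => mu k / k * U (√(k * y))) :=
  Summable.of_norm_bounded (summable_54.mul_left (3 * y ^ (-(1 / 4) : ℝ))) (fun k => q_term hy k)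

noncomputable def Cq : ℝ := 3 * ∑' k : ℕ, 1 / (k : ℝ) ^ (5 / 4 : ℝ)

theorem Cq_nonneg : 0 ≤ Cq := by
  unfold Cq
  have : 0 ≤ ∑' k : ℕ, 1 / (k : ℝ) ^ (5 / 4 : ℝ) := tsum_nonneg (fun k => by positivity)
  positivity

theorem q_le {y : ℝ} (hy : 0 < y) : |q y| ≤ Cq * y ^ (-(1 / 4) : ℝ) := by
  unfold q Cq
  have h := tsum_of_norm_bounded (f := fun k : ℕ => mu k / k * U (√(k * y)))
    ((summable_54.mul_left (3 * y ^ (-(1 / 4) : ℝ))).hasSum) (fun k => q_term hy k)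
  rw [tsum_mul_left] at h
  rw [← Real.norm_eq_abs]
  refine h.trans (le_of_eq (by ring))

theorem qrt_kap_int : IntegrableOn (fun v => |kap v| * v ^ (1 / 4 : ℝ)) (Ioi 0) := by
  obtain ⟨C, hC0, hC⟩ := kap_exp
  have h := Real.GammaIntegral_convergent (s := 5 / 4) (by norm_num)
  refine Integrable.mono' (h.const_mul C) ?_ ?_
  · apply Measurable.aestronglyMeasurable
    have := kap_cont.measurable
    fun_prop
  · filter_upwards [self_mem_ae_restrict measurableSet_Ioi] with v hv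
    have hv0 : (0:ℝ) < v := hv
    have hr : 0 ≤ v ^ (1 / 4 : ℝ) := Real.rpow_nonneg hv0.le _
    rw [norm_mul, Real.norm_eq_abs, abs_abs, Real.norm_of_nonneg hr]
    have h1 := hC v
    rw [abs_of_pos hv0] at h1
    rw [show (5 / 4 - 1 : ℝ) = 1 / 4 by norm_num]
    have := mul_le_mul_of_nonneg_right h1 hr
    linarith

theorem HN_int {N : ℝ} (hN : 0 < N) : IntegrableOn (fun v => U (√(N / v)) * kap v) (Ioi 0) ∧
    (∫ v in Ioi (0:ℝ), ‖U (√(N / v)) * kap v‖) ≤ 3 * N ^ (-(1 / 4) : ℝ) * ∫ v in Ioi (0:ℝ), |kap v| * v ^ (1 / 4 : ℝ) := by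
  have hb : ∀ v ∈ Ioi (0:ℝ), ‖U (√(N / v)) * kap v‖ ≤ 3 * N ^ (-(1 / 4) : ℝ) * (|kap v| * v ^ (1 / 4 : ℝ)) := by
    intro v hv
    have hv0 : (0:ℝ) < v := hv
    rw [norm_mul, Real.norm_eq_abs, Real.norm_eq_abs]
    have h1 := U_sqrt_le (y := N / v) (by positivity)
    rw [Real.div_rpow hN.le hv0.le, Real.rpow_neg hv0.le] at h1
    calc |U (√(N / v))| * |kap v| ≤ (3 * (N ^ (-(1 / 4) : ℝ) / (v ^ (1 / 4 : ℝ))⁻¹)) * |kap v| :=
          mul_le_mul_of_nonneg_right h1 (abs_nonneg _)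
      _ = _ := by rw [div_inv_eq_mul]; ring
  have hm : AEStronglyMeasurable (fun v => U (√(N / v)) * kap v) (volume.restrict (Ioi 0)) := by
    apply Measurable.aestronglyMeasurable
    have := kap_cont.measurable
    have := U_cont.measurable
    fun_prop
  have hi : IntegrableOn (fun v => U (√(N / v)) * kap v) (Ioi 0) := by
    refine Integrable.mono' (qrt_kap_int.const_mul (3 * N ^ (-(1 / 4) : ℝ))) hm ?_
    filter_upwards [self_mem_ae_restrict measurableSet_Ioi] with v hv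
    exact hb v hv
  refine ⟨hi, ?_⟩
  rw [← integral_const_mul]
  exact setIntegral_mono_on hi.norm (qrt_kap_int.const_mul _) measurableSet_Ioi hb

theorem HN_val {N : ℝ} (hN : 0 < N) : ∫ v in Ioi (0:ℝ), U (√(N / v)) * kap v = Gt (√N) / 2 := by
  unfold Gt
  rw [mul_div_cancel_left₀ _ two_ne_zero]
  apply setIntegral_congr_fun measurableSet_Ioi
  intro v hv
  have hv0 : (0:ℝ) < v := hv
  simp only
  rw [Real.sqrt_div hN.le]; ring

/-- average of the inner sum -/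
theorem q_conv {x : ℝ} (hx : 0 < x) : ∫ y in Ioi (0:ℝ), q (x / y) * K y = Gt (√x) / 2 := by
  set F : ℕ+ × ℕ+ → ℝ → ℝ := fun p y =>
    (mu p.1 / (p.1 : ℕ) * U (√((p.1 : ℕ) * (x / y)))) * kap (((p.2 : ℕ) : ℝ) * y) with hF
  have hn0 : ∀ n : ℕ+, (0 : ℝ) < ((n : ℕ) : ℝ) := fun n => by exact_mod_cast n.pos
  have hscale : ∀ p : ℕ+ × ℕ+, ∀ G : ℝ → ℝ, (∫ y in Ioi (0:ℝ), G (((p.2 : ℕ) : ℝ) * y)) =
      1 / ((p.2 : ℕ) : ℝ) * ∫ v in Ioi (0:ℝ), G v := by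
    intro p G
    have h := integral_comp_mul_left_Ioi G 0 (hn0 p.2)
    rw [mul_zero] at h
    rw [h, smul_eq_mul, one_div]
  have hFeq : ∀ p : ℕ+ × ℕ+, ∀ y : ℝ, F p y = (fun v : ℝ => mu p.1 / (p.1 : ℕ) *
      (U (√(((p.1 : ℕ) * (p.2 : ℕ) * x) / v)) * kap v)) (((p.2 : ℕ) : ℝ) * y) := by
    intro p y
    have h1 := (hn0 p.1).ne'
    have h2 := (hn0 p.2).ne'
    simp only [hF]
    have : ((p.1 : ℕ) : ℝ) * (x / y) = ((p.1 : ℕ) * (p.2 : ℕ) * x) / (((p.2 : ℕ) : ℝ) * y) := by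
      rcases eq_or_ne y 0 with h | h
      · rw [h]; simp
      · field_simp
    rw [this]; ring
  have hpos : ∀ p : ℕ+ × ℕ+, 0 < ((p.1 : ℕ) : ℝ) * ((p.2 : ℕ) : ℝ) * x := fun p =>
    mul_pos (mul_pos (hn0 _) (hn0 _)) hx
  have hint : ∀ p : ℕ+ × ℕ+, Integrable (F p) (volume.restrict (Ioi 0)) := by
    intro p
    have h1 := ((HN_int (hpos p)).1.const_mul (mu p.1 / (p.1 : ℕ)))
    have h2 := (integrableOn_Ioi_comp_mul_left_iff (fun v : ℝ => mu p.1 / (p.1 : ℕ) *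
      (U (√(((p.1 : ℕ) * (p.2 : ℕ) * x) / v)) * kap v)) 0 (hn0 p.2)).mpr (by
        rw [mul_zero]; exact h1)
    exact h2.congr (by filter_upwards with y; rw [hFeq p y])
  have hval : ∀ p : ℕ+ × ℕ+, (∫ y in Ioi (0 : ℝ), F p y) =
      mu p.1 * (1 / (((p.1 : ℕ) : ℝ) * ((p.2 : ℕ) : ℝ)) * (Gt (√(((p.1 : ℕ) : ℝ) * ((p.2 : ℕ) : ℝ) * x)) / 2)) := by
    intro p
    simp_rw [hFeq p]
    rw [hscale p (fun v : ℝ => mu p.1 / (p.1 : ℕ) *
      (U (√(((p.1 : ℕ) * (p.2 : ℕ) * x) / v)) * kap v)), integral_const_mul, HN_val (hpos p)]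
    have h1 := (hn0 p.1).ne'
    have h2 := (hn0 p.2).ne'
    field_simp
  set V : ℝ := ∫ v in Ioi (0:ℝ), |kap v| * v ^ (1 / 4 : ℝ) with hV
  have hV0 : 0 ≤ V := setIntegral_nonneg measurableSet_Ioi (fun v hv => by
    have : (0:ℝ) < v := hv
    positivity)
  have hnorm : ∀ p : ℕ+ × ℕ+, (∫ y in Ioi (0 : ℝ), ‖F p y‖) ≤
      3 * x ^ (-(1 / 4) : ℝ) * V * ((1 / ((p.1 : ℕ) : ℝ) ^ (5 / 4 : ℝ)) * (1 / ((p.2 : ℕ) : ℝ) ^ (5 / 4 : ℝ))) := by
    intro p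
    have h1 := (hn0 p.1).ne'
    have h2 := (hn0 p.2).ne'
    have e1 : (∫ y in Ioi (0 : ℝ), ‖F p y‖) = 1 / ((p.2 : ℕ) : ℝ) * ∫ v in Ioi (0:ℝ), ‖mu p.1 / (p.1 : ℕ) *
      (U (√(((p.1 : ℕ) * (p.2 : ℕ) * x) / v)) * kap v)‖ := by
      simp_rw [hFeq p]
      exact hscale p (fun v : ℝ => ‖mu p.1 / (p.1 : ℕ) *
        (U (√(((p.1 : ℕ) * (p.2 : ℕ) * x) / v)) * kap v)‖)
    have e2 : (∫ v in Ioi (0:ℝ), ‖mu p.1 / (p.1 : ℕ) *
      (U (√(((p.1 : ℕ) * (p.2 : ℕ) * x) / v)) * kap v)‖) ≤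
      1 / ((p.1 : ℕ) : ℝ) * (3 * (((p.1 : ℕ) : ℝ) * ((p.2 : ℕ) : ℝ) * x) ^ (-(1 / 4) : ℝ) * V) := by
      simp_rw [norm_mul (mu p.1 / ((p.1 : ℕ) : ℝ))]
      rw [integral_const_mul]
      apply mul_le_mul _ (HN_int (hpos p)).2 (integral_nonneg (fun _ => norm_nonneg _)) (by positivity)
      rw [norm_div, Real.norm_eq_abs, Real.norm_of_nonneg (hn0 _).le]
      exact div_le_div_of_nonneg_right (mu_le _) (hn0 _).le
    rw [e1]
    calc _ ≤ 1 / ((p.2 : ℕ) : ℝ) * (1 / ((p.1 : ℕ) : ℝ) * (3 * (((p.1 : ℕ) : ℝ) * ((p.2 : ℕ) : ℝ) * x) ^ (-(1 / 4) : ℝ) * V)) :=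
          mul_le_mul_of_nonneg_left e2 (by positivity)
      _ = _ := by
          rw [Real.mul_rpow (by positivity) hx.le, Real.mul_rpow (hn0 _).le (hn0 _).le,
            show (5 / 4 : ℝ) = 1 + 1 / 4 by norm_num, Real.rpow_add (hn0 _), Real.rpow_add (hn0 _), Real.rpow_one,
            Real.rpow_one, Real.rpow_neg (hn0 _).le, Real.rpow_neg (hn0 _).le]
          field_simp
  have hs1 : Summable fun n : ℕ+ => (1 : ℝ) / ((n : ℕ) : ℝ) ^ (5 / 4 : ℝ) :=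
    summable_54.comp_injective PNat.coe_injective
  have hsum : Summable fun p : ℕ+ × ℕ+ => ∫ y in Ioi (0 : ℝ), ‖F p y‖ := by
    apply Summable.of_nonneg_of_le (fun p => integral_nonneg (fun _ => norm_nonneg _)) hnorm
    apply Summable.mul_left
    exact hs1.mul_of_nonneg hs1 (fun _ => by positivity) (fun _ => by positivity)
  have hS := hasSum_integral_of_summable_integral_norm hint hsum
  simp_rw [hval] at hS
  have hfin : (∫ y in Ioi (0 : ℝ), ∑' p : ℕ+ × ℕ+, F p y) = ∫ y in Ioi (0:ℝ), q (x / y) * K y := by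
    apply setIntegral_congr_fun measurableSet_Ioi
    intro y hy
    have hy0 : (0 : ℝ) < y := hy
    simp only [hF]
    have hs2 : Summable fun m : ℕ+ => kap (((m : ℕ) : ℝ) * y) := summable_kap hy0
    have hs3' := q_summable (y := x / y) (by positivity)
    have hs3 : Summable fun n : ℕ+ => mu n / (n : ℕ) * U (√((n : ℕ) * (x / y))) :=
      hs3'.comp_injective PNat.coe_injective
    rw [← tsum_mul_tsum_of_summable_norm hs3.norm hs2.norm]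
    unfold K q
    congr 1
    rw [tsum_pnat_eq_tsum_succ (f := fun n : ℕ => mu n / n * U (√(n * (x / y)))),
      hs3'.tsum_eq_zero_add, mu_zero]
    simp
  rw [hfin] at hS
  -- Dirichlet convolution
  have h2 := (sigmaAntidiagonalEquivProd.hasSum_iff (f := fun p : ℕ+ × ℕ+ =>
    mu p.1 * (1 / (((p.1 : ℕ) : ℝ) * ((p.2 : ℕ) : ℝ)) * (Gt (√(((p.1 : ℕ) : ℝ) * ((p.2 : ℕ) : ℝ) * x)) / 2)))).mpr hS
  have h3 := h2.sigma (g := fun k : ℕ+ =>
    (∑ d ∈ (k : ℕ).divisorsAntidiagonal, mu d.1) * (1 / ((k : ℕ) : ℝ) * (Gt (√(((k : ℕ) : ℝ) * x)) / 2))) (fun k => by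
    have h4 := hasSum_fintype (fun c : (k : ℕ).divisorsAntidiagonal =>
      ((fun p : ℕ+ × ℕ+ => mu p.1 * (1 / (((p.1 : ℕ) : ℝ) * ((p.2 : ℕ) : ℝ)) *
        (Gt (√(((p.1 : ℕ) : ℝ) * ((p.2 : ℕ) : ℝ) * x)) / 2))) ∘ sigmaAntidiagonalEquivProd) ⟨k, c⟩)
    convert! h4 using 1
    rw [Finset.sum_mul, ← Finset.sum_coe_sort]
    apply Finset.sum_congr rfl
    intro c _
    have hc := (Nat.mem_divisorsAntidiagonal.mp c.2).1
    simp only [Function.comp, sigmaAntidiagonalEquivProd, Equiv.coe_fn_mk, divisorsAntidiagonalFactors,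
      PNat.mk_coe]
    have hc' : ((k : ℕ) : ℝ) = ((c : ℕ × ℕ).1 : ℝ) * ((c : ℕ × ℕ).2 : ℝ) := by
      rw [← Nat.cast_mul, hc]
    rw [hc'])
  simp_rw [mu_conv] at h3
  have h5 : HasSum (fun k : ℕ+ => (if k = 1 then (1 : ℝ) else 0) * (1 / ((k : ℕ) : ℝ) * (Gt (√(((k : ℕ) : ℝ) * x)) / 2)))
      (Gt (√x) / 2) := by
    have := hasSum_ite_eq (1 : ℕ+) (Gt (√x) / 2)
    refine this.congr_fun ?_
    intro k
    by_cases hk : k = 1
    · subst hk; simp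
    · simp [hk]
  exact h3.unique h5

end Pool.Agent.Helper71.LA
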