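import Mathlib

open Filter Topology MeasureTheory Set

namespace Pool.Agent.Helper71.LA

/-- Fresnel integrand -/
noncomputable def cs (t : ℝ) : ℝ := Real.cos (Real.pi * t ^ 2 / 2) + Real.sin (Real.pi * t ^ 2 / 2)

/-- Fresnel integral -/
noncomputable def J (z : ℝ) : ℝ := ∫ t in (0:ℝ)..z, cs t

theorem cs_cont : Continuous cs := by unfold cs; fun_prop

theorem cs_le (t : ℝ) : |cs t| ≤ 2 := by
  unfold cs
  have h1 := Real.abs_cos_le_one (Real.pi * t ^ 2 / 2)
  have h2 := Real.abs_sin_le_one (Real.pi * t ^ 2 / 2)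
  have h3 := abs_add_le (Real.cos (Real.pi * t ^ 2 / 2)) (Real.sin (Real.pi * t ^ 2 / 2))
  linarith

theorem J_deriv (z : ℝ) : HasDerivAt J (cs z) z :=
  intervalIntegral.integral_hasDerivAt_right (cs_cont.intervalIntegrable _ _)
    (cs_cont.stronglyMeasurableAtFilter _ _) cs_cont.continuousAt

theorem J_cont : Continuous J := continuous_iff_continuousAt.mpr fun z => (J_deriv z).continuousAt

theorem J_zero : J 0 = 0 := by unfold J; simp

theorem J_lip (z : ℝ) : |J z| ≤ 2 * |z| := by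
  unfold J
  have h := intervalIntegral.norm_integral_le_of_norm_le_const (a := 0) (b := z) (C := 2) (f := cs)
    (fun t _ => cs_le t)
  simpa using h

noncomputable def gg (t : ℝ) : ℝ := Real.sin (Real.pi * t ^ 2 / 2) - Real.cos (Real.pi * t ^ 2 / 2)

theorem gg_le (t : ℝ) : |gg t| ≤ 2 := by
  unfold gg
  have h1 := Real.abs_cos_le_one (Real.pi * t ^ 2 / 2)
  have h2 := Real.abs_sin_le_one (Real.pi * t ^ 2 / 2)
  have h3 := abs_sub (Real.sin (Real.pi * t ^ 2 / 2)) (Real.cos (Real.pi * t ^ 2 / 2))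
  linarith

theorem gg_deriv (t : ℝ) : HasDerivAt gg (Real.pi * t * cs t) t := by
  have h0 : HasDerivAt (fun t : ℝ => Real.pi * t ^ 2 / 2) (Real.pi * t) t := by
    have := ((hasDerivAt_pow 2 t).const_mul Real.pi).div_const 2
    refine this.congr_deriv ?_
    push_cast; ring
  have h1 := (h0.sin).sub (h0.cos)
  refine h1.congr_deriv ?_
  unfold cs
  ring

/-- D = J - gg/(π t) has derivative gg/(π t²) -/
theorem D_deriv {t : ℝ} (ht : 0 < t) : HasDerivAt (fun t => J t - gg t / (Real.pi * t))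
    (gg t / (Real.pi * t ^ 2)) t := by
  have hpi := Real.pi_pos
  have h1 : HasDerivAt (fun t : ℝ => Real.pi * t) Real.pi t := by
    simpa using (hasDerivAt_id t).const_mul Real.pi
  have h2 := (J_deriv t).sub ((gg_deriv t).div h1 (by positivity))
  refine h2.congr_deriv ?_
  field_simp
  ring

theorem inv_deriv {t : ℝ} (ht : 0 < t) : HasDerivAt (fun t : ℝ => 2 / Real.pi * t⁻¹) (-(2 / (Real.pi * t ^ 2))) t := by
  have h := (hasDerivAt_inv ht.ne').const_mul (2 / Real.pi)
  refine h.congr_deriv ?_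
  have hpi := Real.pi_pos
  field_simp

theorem J_diff {a b : ℝ} (ha : 0 < a) (hab : a ≤ b) : |J b - J a| ≤ 2 / a := by
  have hpi := Real.pi_gt_three
  have hb : 0 < b := ha.trans_le hab
  -- monotone functions
  have hm : ∀ (σ : ℝ), σ = 1 ∨ σ = -1 → AntitoneOn (fun t => σ * (J t - gg t / (Real.pi * t)) + 2 / Real.pi * t⁻¹) (Icc a b) := by
    intro σ hσ
    apply antitoneOn_of_hasDerivWithinAt_nonpos (convex_Icc a b)
      (f' := fun t => σ * (gg t / (Real.pi * t ^ 2)) + -(2 / (Real.pi * t ^ 2)))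
    · intro t ht
      have ht0 : 0 < t := ha.trans_le ht.1
      exact (((D_deriv ht0).const_mul σ).add (inv_deriv ht0)).continuousAt.continuousWithinAt
    · intro t ht
      rw [interior_Icc] at ht
      have ht0 : 0 < t := ha.trans ht.1
      exact (((D_deriv ht0).const_mul σ).add (inv_deriv ht0)).hasDerivWithinAt
    · intro t ht
      rw [interior_Icc] at ht
      have ht0 : 0 < t := ha.trans ht.1
      have h1 : σ * gg t ≤ 2 := by
        refine (le_abs_self _).trans ?_
        rw [abs_mul]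
        have : |σ| = 1 := by rcases hσ with h | h <;> rw [h] <;> norm_num
        rw [this, one_mul]
        exact gg_le t
      have h2 : σ * (gg t / (Real.pi * t ^ 2)) + -(2 / (Real.pi * t ^ 2)) = (σ * gg t - 2) / (Real.pi * t ^ 2) := by
        ring
      rw [h2]
      apply div_nonpos_of_nonpos_of_nonneg (by linarith) (by positivity)
  have h1 := hm 1 (Or.inl rfl) (left_mem_Icc.mpr hab) (right_mem_Icc.mpr hab) hab
  have h2 := hm (-1) (Or.inr rfl) (left_mem_Icc.mpr hab) (right_mem_Icc.mpr hab) hab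
  simp only at h1 h2
  have ga := abs_le.mp (gg_le a)
  have gb := abs_le.mp (gg_le b)
  have ea : ∀ t : ℝ, 0 < t → |gg t / (Real.pi * t)| ≤ 2 / Real.pi * t⁻¹ := by
    intro t ht
    rw [abs_div, abs_of_pos (by positivity : 0 < Real.pi * t)]
    calc |gg t| / (Real.pi * t) ≤ 2 / (Real.pi * t) := div_le_div_of_nonneg_right (gg_le t) (by positivity)
      _ = _ := by field_simp
  have h3 := abs_le.mp (ea a ha)
  have h4 := abs_le.mp (ea b hb)
  have h5 : 2 / Real.pi * a⁻¹ ≤ (2 / 3) / a := by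
    rw [div_eq_mul_inv (2/3 : ℝ)]
    apply mul_le_mul_of_nonneg_right _ (by positivity)
    rw [div_le_iff₀ (by positivity)]
    linarith
  have h7 : 2 / a = (2 / 3) / a + (2 / 3) / a + (2 / 3) / a := by ring
  have h8 : (0:ℝ) < 2 / Real.pi * b⁻¹ := by positivity
  have h9 : (0:ℝ) < (2 / 3) / a := by positivity
  have h10 : 2 / Real.pi * b⁻¹ ≤ 2 / Real.pi * a⁻¹ := by
    apply mul_le_mul_of_nonneg_left _ (by positivity)
    exact inv_anti₀ ha hab
  rw [abs_le, h7]
  constructor
  · linarith [h3.1, h3.2, h4.1, h4.2]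
  · linarith [h3.1, h3.2, h4.1, h4.2]

theorem J_lim : ∃ L : ℝ, Tendsto J atTop (𝓝 L) := by
  apply cauchySeq_tendsto_of_complete
  rw [Metric.cauchySeq_iff']
  intro ε hε
  refine ⟨max 1 (4 / ε), fun n hn => ?_⟩
  have h1 : 0 < max 1 (4 / ε) := lt_of_lt_of_le one_pos (le_max_left _ _)
  rw [Real.dist_eq]
  refine (J_diff h1 hn).trans_lt ?_
  rw [div_lt_iff₀ h1]
  have h2 : 4 / ε ≤ max 1 (4 / ε) := le_max_right _ _
  rw [div_le_iff₀ hε] at h2
  linarith

noncomputable def Linf : ℝ := Classical.choose J_lim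

theorem J_tendsto : Tendsto J atTop (𝓝 Linf) := Classical.choose_spec J_lim

theorem J_sub_Linf {z : ℝ} (hz : 0 < z) : |J z - Linf| ≤ 2 / z := by
  have h : Tendsto (fun b => |J b - J z|) atTop (𝓝 |Linf - J z|) := (J_tendsto.sub_const _).abs
  rw [abs_sub_comm]
  apply le_of_tendsto h
  filter_upwards [eventually_ge_atTop z] with b hb
  exact J_diff hz hb

/-- Gaussian damping -/
noncomputable def Eg (ε t : ℝ) : ℝ := Real.exp (-(ε * (Real.pi * t ^ 2 / 2)))

theorem Eg_deriv (ε t : ℝ) : HasDerivAt (Eg ε) (-(ε * Real.pi * t) * Eg ε t) t := by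
  have h0 : HasDerivAt (fun t : ℝ => -(ε * (Real.pi * t ^ 2 / 2))) (-(ε * Real.pi * t)) t := by
    have := ((((hasDerivAt_pow 2 t).const_mul Real.pi).div_const 2).const_mul ε).neg
    refine this.congr_deriv ?_
    push_cast; ring
  refine h0.exp.congr_deriv ?_
  unfold Eg; ring

theorem Eg_int {ε : ℝ} (hε : 0 < ε) : Integrable (Eg ε) := by
  have h := integrable_exp_neg_mul_sq (b := ε * Real.pi / 2) (by positivity)
  refine h.congr ?_
  filter_upwards with t
  unfold Eg; congr 1; ring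

theorem Eg_int1 {ε : ℝ} (hε : 0 < ε) : Integrable (fun t => t * Eg ε t) := by
  have h := integrable_mul_exp_neg_mul_sq (b := ε * Real.pi / 2) (by positivity)
  refine h.congr ?_
  filter_upwards with t
  unfold Eg; congr 2; ring

theorem Eg_pos (ε t : ℝ) : 0 < Eg ε t := Real.exp_pos _

theorem Eg_tendsto {ε : ℝ} (hε : 0 < ε) : Tendsto (Eg ε) atTop (𝓝 0) := by
  unfold Eg
  apply Real.tendsto_exp_neg_atTop_nhds_zero.comp
  apply Tendsto.const_mul_atTop hε
  apply Tendsto.atTop_div_const (by norm_num)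
  apply Tendsto.const_mul_atTop Real.pi_pos
  exact tendsto_pow_atTop (by norm_num)

theorem J_bdd : ∃ B : ℝ, 0 ≤ B ∧ ∀ t, 0 ≤ t → |J t| ≤ B := by
  refine ⟨|Linf| + 4, by positivity, fun t ht => ?_⟩
  rcases le_total t 1 with h | h
  · have := J_lip t
    rw [abs_of_nonneg ht] at this
    have := abs_nonneg Linf
    linarith
  · have h1 := J_sub_Linf (z := t) (by linarith)
    have h2 : 2 / t ≤ 2 := by rw [div_le_iff₀ (by linarith)]; linarith
    have h3 := abs_sub_abs_le_abs_sub (J t) Linf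
    linarith

theorem abel {ε : ℝ} (hε : 0 < ε) : |(∫ t in Ioi (0:ℝ), cs t * Eg ε t) - Linf| ≤ 2 * ε * Real.pi *
    ∫ t in Ioi (0:ℝ), Eg ε t := by
  have hpi := Real.pi_pos
  obtain ⟨B, hB0, hB⟩ := J_bdd
  have hEc : Continuous (Eg ε) := continuous_iff_continuousAt.mpr fun z => (Eg_deriv ε z).continuousAt
  have i1 : IntegrableOn (fun t => cs t * Eg ε t) (Ioi 0) := by
    refine Integrable.mono' ((Eg_int hε).const_mul 2).integrableOn (cs_cont.mul hEc).aestronglyMeasurable ?_
    filter_upwards with t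
    rw [norm_mul, Real.norm_eq_abs, Real.norm_of_nonneg (Eg_pos _ _).le]
    exact mul_le_mul_of_nonneg_right (cs_le t) (Eg_pos _ _).le
  have i2 : IntegrableOn (fun t => J t * (-(ε * Real.pi * t) * Eg ε t)) (Ioi 0) := by
    refine Integrable.mono' (((Eg_int1 hε).const_mul (B * (ε * Real.pi)))).integrableOn ?_ ?_
    · apply Continuous.aestronglyMeasurable
      have := J_cont
      fun_prop
    · filter_upwards [self_mem_ae_restrict measurableSet_Ioi] with t ht
      have ht0 : 0 < t := ht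
      rw [norm_mul, norm_mul, norm_neg, Real.norm_eq_abs, Real.norm_of_nonneg (by positivity : 0 ≤ ε * Real.pi * t),
        Real.norm_of_nonneg (Eg_pos _ _).le]
      have := mul_le_mul_of_nonneg_right (hB t ht0.le) (by have := Eg_pos ε t; positivity : 0 ≤ ε * Real.pi * t * Eg ε t)
      linarith
  have i3 : IntegrableOn (fun t => -(ε * Real.pi * t) * Eg ε t) (Ioi 0) := by
    have := ((Eg_int1 hε).const_mul (-(ε * Real.pi))).integrableOn (s := Ioi 0)
    refine this.congr ?_
    filter_upwards with t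
    ring
  have e1 : ∫ t in Ioi (0:ℝ), (cs t * Eg ε t + J t * (-(ε * Real.pi * t) * Eg ε t)) = 0 := by
    have h := integral_Ioi_of_hasDerivAt_of_tendsto' (f := fun t => J t * Eg ε t)
      (f' := fun t => cs t * Eg ε t + J t * (-(ε * Real.pi * t) * Eg ε t)) (a := 0) (m := 0)
      (fun t _ => (J_deriv t).mul (Eg_deriv ε t)) (i1.add i2) (by
        have := J_tendsto.mul (Eg_tendsto hε)
        rwa [mul_zero] at this)
    rw [h, J_zero]; ring
  have e2 : ∫ t in Ioi (0:ℝ), -(ε * Real.pi * t) * Eg ε t = -1 := by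
    have h := integral_Ioi_of_hasDerivAt_of_tendsto' (f := Eg ε)
      (f' := fun t => -(ε * Real.pi * t) * Eg ε t) (a := 0) (m := 0)
      (fun t _ => Eg_deriv ε t) i3 (Eg_tendsto hε)
    rw [h]; unfold Eg; norm_num
  rw [integral_add i1 i2] at e1
  have e3 : (∫ t in Ioi (0:ℝ), cs t * Eg ε t) - Linf =
      -∫ t in Ioi (0:ℝ), (J t - Linf) * (-(ε * Real.pi * t) * Eg ε t) := by
    have : ∫ t in Ioi (0:ℝ), (J t - Linf) * (-(ε * Real.pi * t) * Eg ε t) =
        (∫ t in Ioi (0:ℝ), J t * (-(ε * Real.pi * t) * Eg ε t)) - Linf * ∫ t in Ioi (0:ℝ), -(ε * Real.pi * t) * Eg ε t := by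
      rw [← integral_const_mul, ← integral_sub i2 (i3.const_mul _)]
      apply integral_congr_ae
      filter_upwards with t
      ring
    rw [this, e2]
    linarith
  rw [e3, abs_neg, ← Real.norm_eq_abs, ← integral_const_mul]
  apply norm_integral_le_of_norm_le ((Eg_int hε).const_mul _).integrableOn
  filter_upwards [self_mem_ae_restrict measurableSet_Ioi] with t ht
  have ht0 : 0 < t := ht
  rw [norm_mul, norm_mul, norm_neg, Real.norm_eq_abs, Real.norm_of_nonneg (by positivity : 0 ≤ ε * Real.pi * t),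
    Real.norm_of_nonneg (Eg_pos _ _).le]
  have h1 := J_sub_Linf ht0
  have h2 := Eg_pos ε t
  calc |J t - Linf| * (ε * Real.pi * t * Eg ε t) ≤ (2 / t) * (ε * Real.pi * t * Eg ε t) :=
        mul_le_mul_of_nonneg_right h1 (by positivity)
    _ = _ := by field_simp

end Pool.Agent.Helper71.LA
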