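import Pool.Agent.Helper71.LA.Fres

open Filter Topology MeasureTheory Set

namespace Pool.Agent.Helper71.LA

open Complex in
theorem cs_eg (ε t : ℝ) : cs t * Eg ε t = ((1 - I) * cexp (-(((ε : ℂ) - I) * (Real.pi / 2)) * (t : ℂ) ^ 2)).re := by
  have h : -(((ε : ℂ) - I) * (Real.pi / 2)) * (t : ℂ) ^ 2 =
      ((-(ε * (Real.pi * t ^ 2 / 2)) : ℝ) : ℂ) + ((Real.pi * t ^ 2 / 2 : ℝ) : ℂ) * I := by
    push_cast; ring
  rw [h, Complex.exp_add, ← Complex.ofReal_exp, Complex.exp_mul_I, ← Complex.ofReal_cos, ← Complex.ofReal_sin]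
  unfold cs Eg
  simp only [Complex.mul_re, Complex.sub_re, Complex.one_re, Complex.I_re, Complex.sub_im, Complex.one_im,
    Complex.I_im, Complex.ofReal_re, Complex.ofReal_im, Complex.add_re, Complex.add_im, Complex.mul_im]
  ring

open Complex in
theorem abel_val {ε : ℝ} (hε : 0 < ε) : ∫ t in Ioi (0:ℝ), cs t * Eg ε t =
    ((1 - I) * ((2 / ((ε : ℂ) - I)) ^ (2⁻¹ : ℂ) / 2)).re := by
  have hpi := Real.pi_pos
  have hb : 0 < (((ε : ℂ) - I) * (Real.pi / 2)).re := by
    simp; positivity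
  have h := integral_gaussian_complex_Ioi hb
  have hne : ((ε : ℂ) - I) ≠ 0 := by
    intro h0
    have := congrArg Complex.re h0
    simp at this
    linarith
  have hpi0 : (Real.pi : ℂ) ≠ 0 := by exact_mod_cast hpi.ne'
  have e1 : (Real.pi : ℂ) / (((ε : ℂ) - I) * (Real.pi / 2)) = 2 / ((ε : ℂ) - I) := by
    field_simp
  rw [e1, show (1 / 2 : ℂ) = 2⁻¹ by norm_num] at h
  rw [← h, ← integral_const_mul]
  have hi : IntegrableOn (fun t : ℝ => (1 - I) * cexp (-(((ε : ℂ) - I) * (Real.pi / 2)) * (t : ℂ) ^ 2)) (Ioi 0) :=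
    ((integrable_cexp_neg_mul_sq hb).const_mul _).integrableOn
  have h2 := integral_re hi
  simp only [RCLike.re_to_complex] at h2
  rw [← h2]
  apply integral_congr_ae
  filter_upwards with t
  exact cs_eg ε t

open Complex in
theorem abel_lim : Tendsto (fun ε : ℝ => ((1 - I) * ((2 / ((ε : ℂ) - I)) ^ (2⁻¹ : ℂ) / 2)).re) (𝓝[>] 0) (𝓝 1) := by
  have h1 : (2 / (((0:ℝ) : ℂ) - I)) = (1 + I) ^ 2 := by
    rw [Complex.ofReal_zero, zero_sub, div_eq_iff (neg_ne_zero.mpr Complex.I_ne_zero)]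
    have := Complex.I_sq
    linear_combination (Complex.I + 2) * this
  have hc : ContinuousAt (fun ε : ℝ => ((1 - I) * ((2 / ((ε : ℂ) - I)) ^ (2⁻¹ : ℂ) / 2)).re) 0 := by
    apply Complex.continuous_re.continuousAt.comp
    apply ContinuousAt.mul continuousAt_const
    apply ContinuousAt.div_const
    apply ContinuousAt.cpow
    · apply ContinuousAt.div continuousAt_const (by fun_prop)
      rw [Complex.ofReal_zero, zero_sub]
      exact neg_ne_zero.mpr Complex.I_ne_zero
    · exact continuousAt_const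
    · rw [h1]
      right
      have : ((1 + I) ^ 2).im = 2 := by
        simp [sq]; norm_num
      rw [this]; norm_num
  have h2 := hc.tendsto.mono_left (nhdsWithin_le_nhds (s := Ioi 0))
  rw [h1, Complex.sq_cpow_two_inv (by simp)] at h2
  have h3 : ((1 - I) * ((1 + I) / 2)).re = 1 := by
    simp [Complex.mul_re]; norm_num
  rwa [h3] at h2

theorem Linf_eq : Linf = 1 := by
  have h1 : Tendsto (fun ε : ℝ => ∫ t in Ioi (0:ℝ), cs t * Eg ε t) (𝓝[>] 0) (𝓝 1) := by
    apply abel_lim.congr'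
    filter_upwards [self_mem_nhdsWithin] with ε hε
    exact (abel_val hε).symm
  have h2 : Tendsto (fun ε : ℝ => ∫ t in Ioi (0:ℝ), cs t * Eg ε t) (𝓝[>] 0) (𝓝 Linf) := by
    rw [tendsto_iff_dist_tendsto_zero]
    have h3 : Tendsto (fun ε : ℝ => Real.pi * √(2 * ε)) (𝓝[>] 0) (𝓝 0) := by
      have : Tendsto (fun ε : ℝ => Real.pi * √(2 * ε)) (𝓝 0) (𝓝 (Real.pi * √(2 * 0))) := by
        apply Continuous.tendsto; fun_prop
      rw [mul_zero, Real.sqrt_zero, mul_zero] at this
      exact this.mono_left nhdsWithin_le_nhds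
    refine squeeze_zero' (Eventually.of_forall fun _ => dist_nonneg) ?_ h3
    filter_upwards [self_mem_nhdsWithin] with ε hε
    have hε0 : 0 < ε := hε
    rw [Real.dist_eq]
    refine (abel hε0).trans (le_of_eq ?_)
    have hg := integral_gaussian_Ioi (ε * Real.pi / 2)
    have : ∫ t in Ioi (0:ℝ), Eg ε t = √(Real.pi / (ε * Real.pi / 2)) / 2 := by
      rw [← hg]
      apply integral_congr_ae
      filter_upwards with t
      unfold Eg; congr 1; ring
    rw [this]
    have hpi := Real.pi_pos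
    have e1 : Real.pi / (ε * Real.pi / 2) = 2 * ε / ε ^ 2 := by field_simp
    rw [e1, Real.sqrt_div (by positivity), Real.sqrt_sq hε0.le]
    field_simp
  exact tendsto_nhds_unique h2 h1

/-- the tail of the Fresnel integrals -/
noncomputable def U (z : ℝ) : ℝ := J z - 1

theorem U_cont : Continuous U := J_cont.sub continuous_const

theorem U_le {z : ℝ} (hz : 0 < z) : |U z| ≤ 2 / z := by
  have := J_sub_Linf hz
  rwa [Linf_eq] at this

theorem U_le3 {z : ℝ} (hz : 0 ≤ z) (hz1 : z ≤ 1) : |U z| ≤ 3 := by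
  unfold U
  have h1 := J_lip z
  rw [abs_of_nonneg hz] at h1
  have h2 := abs_sub (J z) 1
  rw [abs_one] at h2
  linarith

theorem U_le_rt {z : ℝ} (hz : 0 < z) : |U z| ≤ 3 * z ^ (-(1 / 2) : ℝ) := by
  rcases le_total z 1 with h | h
  · refine (U_le3 hz.le h).trans ?_
    have : 1 ≤ z ^ (-(1 / 2) : ℝ) := Real.one_le_rpow_of_pos_of_le_one_of_nonpos hz h (by norm_num)
    linarith
  · refine (U_le hz).trans ?_
    rw [div_eq_mul_inv, ← Real.rpow_neg_one]
    have h1 : z ^ (-1 : ℝ) ≤ z ^ (-(1 / 2) : ℝ) := Real.rpow_le_rpow_of_exponent_le h (by norm_num)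
    have h2 : 0 ≤ z ^ (-(1 / 2) : ℝ) := Real.rpow_nonneg hz.le _
    linarith

end Pool.Agent.Helper71.LA
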