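import Pool.Agent.Helper71.LA.Gz

open Complex Filter Topology MeasureTheory Set
open scoped FourierTransform
open Pool.Agent.Helper18.ES (kap Phi)
open Pool.Agent.Helper71.MR (kap_fourier kap_int kap_even kap_zero_int)

namespace Pool.Agent.Helper71.LA

theorem cs_scaled (z : ℝ) {s : ℝ} (hs : 0 < s) : ∫ ζ in (0:ℝ)..z, cs (ζ / √s) / √s = J (z / √s) := by
  have hr := Real.sqrt_pos.mpr hs
  have h := intervalIntegral.integral_comp_div (a := 0) (b := z) cs hr.ne'
  rw [intervalIntegral.integral_div, h, smul_eq_mul, zero_div]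
  unfold J
  field_simp

theorem kapcs_int {C : ℝ} (hC0 : 0 ≤ C) (hC : ∀ u : ℝ, |kap u| ≤ C * Real.exp (-|u|)) (ζ : ℝ) {s : ℝ} (hs : 0 < s) :
    |kap s * (cs (ζ / √s) / √s)| ≤ 2 * C * (s ^ (-(1 / 2) : ℝ) * Real.exp (-s)) := by
  have hr := Real.sqrt_pos.mpr hs
  rw [abs_mul, abs_div, abs_of_pos hr]
  have h1 := hC s
  rw [abs_of_pos hs] at h1
  have h2 := cs_le (ζ / √s)
  have h3 : s ^ (-(1 / 2) : ℝ) = (√s)⁻¹ := by
    rw [Real.rpow_neg hs.le, Real.sqrt_eq_rpow]
  rw [h3]
  calc |kap s| * (|cs (ζ / √s)| / √s) ≤ (C * Real.exp (-s)) * (2 / √s) := by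
        apply mul_le_mul h1 _ (by positivity) (by positivity)
        exact div_le_div_of_nonneg_right h2 hr.le
    _ = _ := by rw [div_eq_mul_inv]; ring

theorem Ah_J (z : ℝ) : ∫ ζ in (0:ℝ)..z, Ah ζ = ∫ s in Ioi (0:ℝ), kap s * J (z / √s) := by
  obtain ⟨C, hC0, hC⟩ := kap_exp
  simp_rw [quart]
  have hi : Integrable (Function.uncurry fun ζ s : ℝ => kap s * (cs (ζ / √s) / √s))
      ((volume.restrict (Set.uIoc 0 z)).prod (volume.restrict (Ioi 0))) := by
    have h1 : Integrable (fun p : ℝ × ℝ => (2 * C) * (p.2 ^ (-(1 / 2) : ℝ) * Real.exp (-p.2)))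
        ((volume.restrict (Set.uIoc 0 z)).prod (volume.restrict (Ioi 0))) :=
      Integrable.mul_prod (f := fun _ : ℝ => 2 * C) (g := fun s : ℝ => s ^ (-(1 / 2) : ℝ) * Real.exp (-s))
        (integrableOn_const (by
          rw [Set.uIoc]
          exact measure_Ioc_lt_top.ne)) rt_exp_int
    refine Integrable.mono' h1 ?_ ?_
    · apply Measurable.aestronglyMeasurable
      simp only [Function.uncurry_def]
      have := kap_cont.measurable
      have := cs_cont.measurable
      fun_prop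
    · rw [Measure.prod_restrict]
      filter_upwards [self_mem_ae_restrict (measurableSet_uIoc.prod measurableSet_Ioi)] with p hp
      simp only [Function.uncurry_def]
      exact kapcs_int hC0 hC p.1 hp.2
  rw [intervalIntegral_integral_swap hi]
  apply setIntegral_congr_fun measurableSet_Ioi
  intro s hs
  simp only
  rw [intervalIntegral.integral_const_mul, cs_scaled z hs]

/-- kernel average of the Fresnel tail -/
noncomputable def Gt (z : ℝ) : ℝ := 2 * ∫ v in Ioi (0:ℝ), kap v * U (z / √v)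

theorem Gt_eq {z : ℝ} (hz : 0 ≤ z) : Gt z = z * Psh z := by
  have h1 := Ah_int z
  rw [Ah_J] at h1
  obtain ⟨B, hB0, hB⟩ := J_bdd
  have hk : IntegrableOn kap (Ioi 0) := kap_int.integrableOn
  have i1 : IntegrableOn (fun s => kap s * J (z / √s)) (Ioi 0) := by
    refine Integrable.mono' (hk.abs.mul_const B) ?_ ?_
    · apply Measurable.aestronglyMeasurable
      have := kap_cont.measurable
      have := J_cont.measurable
      fun_prop
    · filter_upwards with s
      rw [norm_mul, Real.norm_eq_abs, Real.norm_eq_abs]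
      exact mul_le_mul_of_nonneg_left (hB _ (div_nonneg hz (Real.sqrt_nonneg _))) (abs_nonneg _)
  have e : ∫ v in Ioi (0:ℝ), kap v * U (z / √v) = ∫ v in Ioi (0:ℝ), kap v * J (z / √v) := by
    have : ∫ v in Ioi (0:ℝ), kap v * U (z / √v) = ∫ v in Ioi (0:ℝ), (kap v * J (z / √v) - kap v) := by
      apply integral_congr_ae
      filter_upwards with v
      unfold U; ring
    rw [this, integral_sub i1 hk, kap_zero_int, sub_zero]
  unfold Gt
  rw [e, h1]; ring

theorem rt_kap_int : IntegrableOn (fun v => |kap v| * √v) (Ioi 0) := by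
  obtain ⟨C, hC0, hC⟩ := kap_exp
  have h := Real.GammaIntegral_convergent (s := 3 / 2) (by norm_num)
  refine Integrable.mono' (h.const_mul C) ?_ ?_
  · apply Continuous.aestronglyMeasurable
    have := kap_cont
    fun_prop
  · filter_upwards [self_mem_ae_restrict measurableSet_Ioi] with v hv
    have hv0 : (0:ℝ) < v := hv
    rw [norm_mul, Real.norm_eq_abs, abs_abs, Real.norm_of_nonneg (Real.sqrt_nonneg _)]
    have h1 := hC v
    rw [abs_of_pos hv0] at h1
    rw [show (3 / 2 - 1 : ℝ) = 1 / 2 by norm_num, ← Real.sqrt_eq_rpow]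
    have := mul_le_mul_of_nonneg_right h1 (Real.sqrt_nonneg v)
    linarith

theorem Gt_bd : ∃ C : ℝ, 0 ≤ C ∧ ∀ z : ℝ, 0 < z → |Gt z| ≤ C / z := by
  refine ⟨4 * ∫ v in Ioi (0:ℝ), |kap v| * √v, ?_, ?_⟩
  · have : 0 ≤ ∫ v in Ioi (0:ℝ), |kap v| * √v := integral_nonneg (fun v => by positivity)
    positivity
  intro z hz
  unfold Gt
  rw [abs_mul, abs_two]
  have h1 : |∫ v in Ioi (0:ℝ), kap v * U (z / √v)| ≤ ∫ v in Ioi (0:ℝ), (2 / z) * (|kap v| * √v) := by
    rw [← Real.norm_eq_abs]
    apply norm_integral_le_of_norm_le (rt_kap_int.const_mul _)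
    filter_upwards [self_mem_ae_restrict measurableSet_Ioi] with v hv
    have hv0 : (0:ℝ) < v := hv
    have hr := Real.sqrt_pos.mpr hv0
    rw [norm_mul, Real.norm_eq_abs, Real.norm_eq_abs]
    have h2 := U_le (z := z / √v) (by positivity)
    calc |kap v| * |U (z / √v)| ≤ |kap v| * (2 / (z / √v)) := mul_le_mul_of_nonneg_left h2 (abs_nonneg _)
      _ = _ := by field_simp
  rw [integral_const_mul] at h1
  calc 2 * |∫ v in Ioi (0:ℝ), kap v * U (z / √v)| ≤ 2 * ((2 / z) * ∫ v in Ioi (0:ℝ), |kap v| * √v) :=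
        mul_le_mul_of_nonneg_left h1 (by norm_num)
    _ = _ := by ring

end Pool.Agent.Helper71.LA
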