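import Pool.Agent.Helper71.LA.Quart2
import Pool.Agent.Helper18.ES.Lam2

open Complex Filter Topology MeasureTheory Set
open scoped FourierTransform
open Pool.Agent.Helper18.ES (kap Phi)
open Pool.Agent.Helper71.MR (kap_fourier kap_int kap_even kap_zero_int)

namespace Pool.Agent.Helper71.LA

theorem exp_sq_aux (y : ℝ) : Real.exp (y ^ 2 + -(Real.pi * y ^ 2)) ≤ Real.exp 1 * Real.exp (-|y|) := by
  rw [← Real.exp_add]
  apply Real.exp_le_exp.mpr
  have h6 := Real.pi_gt_three
  have h7 : |y| ≤ 1 + y ^ 2 := by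
    have := sq_abs y
    nlinarith [sq_nonneg (|y| - 1), abs_nonneg y]
  nlinarith [sq_nonneg y]

theorem Phi_exp : ∃ C : ℝ, 0 ≤ C ∧ ∀ u : ℝ, |Phi u| ≤ C * Real.exp (-|u|) := by
  have hpi := Real.pi_pos
  refine ⟨(2 * Real.pi + 1) * Real.exp 1, by positivity, fun u => ?_⟩
  unfold Phi
  rw [abs_mul, abs_of_pos (Real.exp_pos _)]
  have h1 : u ^ 2 + 1 ≤ Real.exp (u ^ 2) := Real.add_one_le_exp (u ^ 2)
  have h3 : |2 * Real.pi * u ^ 2 - 1| ≤ (2 * Real.pi + 1) * Real.exp (u ^ 2) := by
    refine (abs_sub _ _).trans ?_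
    rw [abs_of_nonneg (by positivity), abs_one]
    nlinarith [sq_nonneg u]
  calc |2 * Real.pi * u ^ 2 - 1| * Real.exp (-(Real.pi * u ^ 2))
      ≤ ((2 * Real.pi + 1) * Real.exp (u ^ 2)) * Real.exp (-(Real.pi * u ^ 2)) :=
        mul_le_mul_of_nonneg_right h3 (Real.exp_pos _).le
    _ = (2 * Real.pi + 1) * Real.exp (u ^ 2 + -(Real.pi * u ^ 2)) := by
        rw [Real.exp_add]; ring
    _ ≤ (2 * Real.pi + 1) * (Real.exp 1 * Real.exp (-|u|)) :=
        mul_le_mul_of_nonneg_left (exp_sq_aux u) (by positivity)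
    _ = _ := by ring

theorem Phi_cont : Continuous Phi := by unfold Phi; fun_prop

theorem Phisq_int : Integrable (fun t : ℝ => Phi (t ^ 2)) := by
  obtain ⟨C, hC0, hC⟩ := Phi_exp
  have h := (integrable_exp_neg_mul_sq (b := 1) one_pos).const_mul C
  refine Integrable.mono' h ?_ ?_
  · apply Continuous.aestronglyMeasurable
    have := Phi_cont
    fun_prop
  · filter_upwards with t
    rw [Real.norm_eq_abs]
    have := hC (t ^ 2)
    rw [abs_of_nonneg (sq_nonneg t)] at this
    rwa [show -1 * t ^ 2 = -t ^ 2 by ring]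

/-- kap (t²) / t -/
noncomputable def kq (t : ℝ) : ℝ := (4 * Real.pi ^ 2 * t ^ 7 - 6 * Real.pi * t ^ 3) * Real.exp (-(Real.pi * t ^ 4))

theorem kq_mul (t : ℝ) : t * kq t = kap (t ^ 2) := by
  unfold kq kap
  rw [show Real.pi * (t ^ 2) ^ 2 = Real.pi * t ^ 4 by ring]
  ring

theorem kq_cont : Continuous kq := by unfold kq; fun_prop

theorem kq_int : Integrable kq := by
  have hpi := Real.pi_pos
  have h := (kapsq_int.abs).add ((integrable_exp_neg_mul_sq (b := 1) one_pos).const_mul ((4 * Real.pi ^ 2 + 6 * Real.pi) * Real.exp 1))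
  refine Integrable.mono' h kq_cont.aestronglyMeasurable ?_
  filter_upwards with t
  rw [Real.norm_eq_abs]
  simp only [Pi.add_apply]
  rcases le_total |t| 1 with ht | ht
  · have h1 : |kq t| ≤ (4 * Real.pi ^ 2 + 6 * Real.pi) := by
      unfold kq
      rw [abs_mul, abs_of_pos (Real.exp_pos _)]
      have e1 : Real.exp (-(Real.pi * t ^ 4)) ≤ 1 := Real.exp_le_one_iff.mpr (by
        have : 0 ≤ Real.pi * t ^ 4 := by positivity
        linarith)
      have e2 : |4 * Real.pi ^ 2 * t ^ 7 - 6 * Real.pi * t ^ 3| ≤ 4 * Real.pi ^ 2 + 6 * Real.pi := by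
        refine (abs_sub _ _).trans ?_
        rw [abs_mul (4 * Real.pi ^ 2), abs_mul (6 * Real.pi), abs_of_nonneg (by positivity : (0:ℝ) ≤ 4 * Real.pi ^ 2),
          abs_of_nonneg (by positivity : (0:ℝ) ≤ 6 * Real.pi), abs_pow, abs_pow]
        have := pow_le_one₀ (abs_nonneg t) ht (n := 7)
        have := pow_le_one₀ (abs_nonneg t) ht (n := 3)
        nlinarith
      calc |4 * Real.pi ^ 2 * t ^ 7 - 6 * Real.pi * t ^ 3| * Real.exp (-(Real.pi * t ^ 4)) ≤
          (4 * Real.pi ^ 2 + 6 * Real.pi) * 1 := mul_le_mul e2 e1 (Real.exp_pos _).le (by positivity)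
        _ = _ := mul_one _
    have h2 : 1 ≤ Real.exp 1 * Real.exp (-1 * t ^ 2) := by
      rw [← Real.exp_add]
      apply Real.one_le_exp
      have : t ^ 2 ≤ 1 := by rw [← sq_abs]; nlinarith [abs_nonneg t]
      linarith
    have h3 : 0 ≤ |kap (t ^ 2)| := abs_nonneg _
    have h4 : (4 * Real.pi ^ 2 + 6 * Real.pi) * 1 ≤ (4 * Real.pi ^ 2 + 6 * Real.pi) * (Real.exp 1 * Real.exp (-1 * t ^ 2)) :=
      mul_le_mul_of_nonneg_left h2 (by positivity)
    linarith
  · have h1 : |kq t| ≤ |kap (t ^ 2)| := by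
      rw [← kq_mul, abs_mul]
      nlinarith [abs_nonneg (kq t)]
    have h2 : 0 ≤ (4 * Real.pi ^ 2 + 6 * Real.pi) * Real.exp 1 * Real.exp (-1 * t ^ 2) := by positivity
    linarith

theorem Psi_deriv (t : ℝ) : HasDerivAt (fun t : ℝ => Phi (t ^ 2)) (-(2 * kq t)) t := by
  have h0 : HasDerivAt (fun t : ℝ => t ^ 4) (4 * t ^ 3) t := by
    simpa using hasDerivAt_pow 4 t
  have h1 : HasDerivAt (fun t : ℝ => 2 * Real.pi * t ^ 4 - 1) (2 * Real.pi * (4 * t ^ 3)) t :=
    (h0.const_mul (2 * Real.pi)).sub_const 1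
  have h2 : HasDerivAt (fun t : ℝ => Real.exp (-(Real.pi * t ^ 4)))
      (Real.exp (-(Real.pi * t ^ 4)) * (-(Real.pi * (4 * t ^ 3)))) t := ((h0.const_mul Real.pi).neg).exp
  have h3 := h1.mul h2
  have e : (fun t : ℝ => Phi (t ^ 2)) = (fun t : ℝ => (2 * Real.pi * t ^ 4 - 1)) * fun t => Real.exp (-(Real.pi * t ^ 4)) := by
    ext t
    simp only [Pi.mul_apply]
    unfold Phi
    rw [show Real.pi * (t ^ 2) ^ 2 = Real.pi * t ^ 4 by ring, show 2 * Real.pi * (t ^ 2) ^ 2 = 2 * Real.pi * t ^ 4 by ring]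
  rw [e]
  refine h3.congr_deriv ?_
  unfold kq
  ring

/-- cosine transform of Φ(t²) -/
noncomputable def Psh (z : ℝ) : ℝ := ∫ t : ℝ, Phi (t ^ 2) * Real.cos (2 * Real.pi * z * t)

theorem kq_sin (z : ℝ) : ∫ t : ℝ, kq t * Real.sin (2 * Real.pi * z * t) = Real.pi * z * Psh z := by
  have hb : ∀ (f : ℝ → ℝ), Integrable f → ∀ g : ℝ → ℝ, Continuous g → (∀ t, |g t| ≤ 1) →
      Integrable (fun t => g t * f t) := by
    intro f hf g hg hg1
    refine hf.bdd_mul (c := 1) hg.aestronglyMeasurable ?_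
    filter_upwards with t
    exact hg1 t
  have hs : Continuous (fun t : ℝ => Real.sin (2 * Real.pi * z * t)) := by fun_prop
  have hc : Continuous (fun t : ℝ => Real.cos (2 * Real.pi * z * t)) := by fun_prop
  have i1 := hb kq kq_int _ hs (fun t => Real.abs_sin_le_one _)
  have i2 := hb _ Phisq_int _ hc (fun t => Real.abs_cos_le_one _)
  have i3 := hb _ Phisq_int _ hs (fun t => Real.abs_sin_le_one _)
  have h := integral_mul_deriv_eq_deriv_mul_of_integrable (u := fun t : ℝ => Real.sin (2 * Real.pi * z * t))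
    (v := fun t : ℝ => Phi (t ^ 2)) (u' := fun t => Real.cos (2 * Real.pi * z * t) * (2 * Real.pi * z))
    (v' := fun t => -(2 * kq t))
    (fun t _ => by
      have h1 : HasDerivAt (fun t : ℝ => 2 * Real.pi * z * t) (2 * Real.pi * z) t := by
        simpa using (hasDerivAt_id t).const_mul (2 * Real.pi * z)
      exact h1.sin) (fun t _ => Psi_deriv t)
    (by
      refine (i1.const_mul (-2)).congr ?_
      filter_upwards with t
      simp only [Pi.mul_apply]; ring)
    (by
      refine (i2.const_mul (2 * Real.pi * z)).congr ?_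
      filter_upwards with t
      simp only [Pi.mul_apply]; ring)
    (by
      refine i3.congr ?_
      filter_upwards with t
      simp only [Pi.mul_apply])
  have e1 : ∫ t : ℝ, Real.sin (2 * Real.pi * z * t) * -(2 * kq t) = -2 * ∫ t : ℝ, kq t * Real.sin (2 * Real.pi * z * t) := by
    rw [← integral_const_mul]
    apply integral_congr_ae
    filter_upwards with t
    ring
  have e2 : ∫ t : ℝ, Real.cos (2 * Real.pi * z * t) * (2 * Real.pi * z) * Phi (t ^ 2) = (2 * Real.pi * z) * Psh z := by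
    unfold Psh
    rw [← integral_const_mul]
    apply integral_congr_ae
    filter_upwards with t
    ring
  rw [e1, e2] at h
  linarith

theorem Ah_int (z : ℝ) : ∫ ζ in (0:ℝ)..z, Ah ζ = z / 2 * Psh z := by
  have hpi := Real.pi_pos
  unfold Ah
  have hswap : ∫ ζ in (0:ℝ)..z, ∫ t : ℝ, kap (t ^ 2) * Real.cos (2 * Real.pi * ζ * t) =
      ∫ t : ℝ, ∫ ζ in (0:ℝ)..z, kap (t ^ 2) * Real.cos (2 * Real.pi * ζ * t) := by
    have hi : Integrable (Function.uncurry fun ζ t : ℝ => kap (t ^ 2) * Real.cos (2 * Real.pi * ζ * t))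
        ((volume.restrict (Set.uIoc 0 z)).prod volume) := by
      have h1 : Integrable (fun p : ℝ × ℝ => (1:ℝ) * |kap (p.2 ^ 2)|) ((volume.restrict (Set.uIoc 0 z)).prod volume) :=
        Integrable.mul_prod (f := fun _ : ℝ => (1:ℝ)) (g := fun t : ℝ => |kap (t ^ 2)|)
          (integrableOn_const (by
            rw [Set.uIoc]
            exact measure_Ioc_lt_top.ne)) kapsq_int.abs
      refine Integrable.mono' h1 ?_ ?_
      · apply Continuous.aestronglyMeasurable
        simp only [Function.uncurry_def]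
        have := kap_cont
        fun_prop
      · filter_upwards with p
        simp only [Function.uncurry_def]
        rw [norm_mul, Real.norm_eq_abs, Real.norm_eq_abs, one_mul]
        have := Real.abs_cos_le_one (2 * Real.pi * p.1 * p.2)
        nlinarith [abs_nonneg (kap (p.2 ^ 2))]
    exact intervalIntegral_integral_swap hi
  rw [hswap]
  have e : ∀ᵐ t : ℝ, ∫ ζ in (0:ℝ)..z, kap (t ^ 2) * Real.cos (2 * Real.pi * ζ * t) =
      1 / (2 * Real.pi) * (kq t * Real.sin (2 * Real.pi * z * t)) := by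
    have hne : ∀ᵐ s : ℝ, s ≠ 0 := by
      have : (volume : Measure ℝ) {0} = 0 := Real.volume_singleton
      exact compl_mem_ae_iff.mpr this
    filter_upwards [hne] with t ht
    rw [intervalIntegral.integral_const_mul]
    have h1 : ∫ ζ in (0:ℝ)..z, Real.cos (2 * Real.pi * ζ * t) = Real.sin (2 * Real.pi * z * t) / (2 * Real.pi * t) := by
      have h2 : ∀ ζ ∈ Set.uIcc 0 z, HasDerivAt (fun ζ : ℝ => Real.sin (2 * Real.pi * ζ * t) / (2 * Real.pi * t))
          (Real.cos (2 * Real.pi * ζ * t)) ζ := by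
        intro ζ _
        have h3 : HasDerivAt (fun ζ : ℝ => 2 * Real.pi * ζ * t) (2 * Real.pi * t) ζ := by
          have := ((hasDerivAt_id ζ).const_mul (2 * Real.pi)).mul_const t
          simpa using this
        refine (h3.sin.div_const (2 * Real.pi * t)).congr_deriv ?_
        field_simp
      rw [intervalIntegral.integral_eq_sub_of_hasDerivAt h2 ((by fun_prop : Continuous fun ζ : ℝ => Real.cos (2 * Real.pi * ζ * t)).intervalIntegrable _ _)]
      simp
    rw [h1, ← kq_mul]
    field_simp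
  rw [integral_congr_ae e, integral_const_mul, kq_sin]
  field_simp

end Pool.Agent.Helper71.LA
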