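import Pool.Agent.Helper71.LA.AvI

open Filter Topology MeasureTheory Set
open Pool.Agent.Helper18.ES (kap K K_pos mu mu_le mu_conv summable_kap int_rpow_K XR XR_pos)
open Pool.Agent.Helper71.MR (kap_int kap_zero_int mu_zero summable_54)

namespace Pool.Agent.Helper71.LA

/-- the dual part -/
noncomputable def II (x : ℝ) : ℝ := 2 * ∑' m : ℕ, 1 / (m : ℝ) * q ((m : ℝ) ^ 2 * x)

theorem II_meas : Measurable II := by
  unfold II
  apply Measurable.const_mul
  apply Measurable.tsum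
  intro m
  have := q_meas
  fun_prop

theorem summable_32 : Summable (fun m : ℕ => 1 / (m : ℝ) ^ (3 / 2 : ℝ)) :=
  Real.summable_one_div_nat_rpow.mpr (by norm_num)

theorem sq_rpow_neg {m : ℕ} (hm : 0 < m) {x : ℝ} (hx : 0 < x) : ((m : ℝ) ^ 2 * x) ^ (-(1 / 4) : ℝ) =
    x ^ (-(1 / 4) : ℝ) * (m : ℝ) ^ (-(1 / 2) : ℝ) := by
  have hm0 : (0:ℝ) < m := by exact_mod_cast hm
  rw [Real.mul_rpow (by positivity) hx.le, ← Real.rpow_natCast, ← Real.rpow_mul hm0.le, mul_comm]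
  norm_num

theorem inv_rpow_32 {m : ℕ} (hm : 0 < m) : 1 / (m : ℝ) * (m : ℝ) ^ (-(1 / 2) : ℝ) = 1 / (m : ℝ) ^ (3 / 2 : ℝ) := by
  have hm0 : (0:ℝ) < m := by exact_mod_cast hm
  rw [show (3 / 2 : ℝ) = 1 + 1 / 2 by norm_num, Real.rpow_add hm0, Real.rpow_one, Real.rpow_neg hm0.le]
  field_simp

theorem II_term {x : ℝ} (hx : 0 < x) (m : ℕ) : |1 / (m : ℝ) * q ((m : ℝ) ^ 2 * x)| ≤
    Cq * x ^ (-(1 / 4) : ℝ) * (1 / (m : ℝ) ^ (3 / 2 : ℝ)) := by
  have hC := Cq_nonneg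
  have hr : 0 ≤ x ^ (-(1 / 4) : ℝ) := Real.rpow_nonneg hx.le _
  rcases Nat.eq_zero_or_pos m with h | h
  · subst h
    have : 0 ≤ Cq * x ^ (-(1 / 4) : ℝ) * (1 / ((0 : ℕ) : ℝ) ^ (3 / 2 : ℝ)) := by positivity
    simpa using this
  have hm0 : (0:ℝ) < m := by exact_mod_cast h
  have h1 := q_le (y := (m : ℝ) ^ 2 * x) (by positivity)
  rw [sq_rpow_neg h hx] at h1
  rw [abs_mul, abs_of_pos (by positivity : 0 < 1 / (m : ℝ))]
  calc 1 / (m : ℝ) * |q ((m : ℝ) ^ 2 * x)| ≤ 1 / (m : ℝ) * (Cq * (x ^ (-(1 / 4) : ℝ) * (m : ℝ) ^ (-(1 / 2) : ℝ))) :=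
        mul_le_mul_of_nonneg_left h1 (by positivity)
    _ = Cq * x ^ (-(1 / 4) : ℝ) * (1 / (m : ℝ) * (m : ℝ) ^ (-(1 / 2) : ℝ)) := by ring
    _ = _ := by rw [inv_rpow_32 h]

theorem II_summable {x : ℝ} (hx : 0 < x) : Summable (fun m : ℕ => 1 / (m : ℝ) * q ((m : ℝ) ^ 2 * x)) :=
  Summable.of_norm_bounded (summable_32.mul_left (Cq * x ^ (-(1 / 4) : ℝ))) (fun m => II_term hx m)

noncomputable def CI : ℝ := 2 * (Cq * ∑' m : ℕ, 1 / (m : ℝ) ^ (3 / 2 : ℝ))

theorem CI_nonneg : 0 ≤ CI := by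
  unfold CI
  have : 0 ≤ ∑' m : ℕ, 1 / (m : ℝ) ^ (3 / 2 : ℝ) := tsum_nonneg (fun m => by positivity)
  have := Cq_nonneg
  positivity

theorem II_le {x : ℝ} (hx : 0 < x) : |II x| ≤ CI * x ^ (-(1 / 4) : ℝ) := by
  unfold II CI
  have h := tsum_of_norm_bounded (f := fun m : ℕ => 1 / (m : ℝ) * q ((m : ℝ) ^ 2 * x))
    ((summable_32.mul_left (Cq * x ^ (-(1 / 4) : ℝ))).hasSum) (fun m => II_term hx m)
  rw [tsum_mul_left, Real.norm_eq_abs] at h
  rw [abs_mul, abs_two]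
  have := mul_le_mul_of_nonneg_left h (by norm_num : (0:ℝ) ≤ 2)
  refine this.trans (le_of_eq (by ring))

theorem q_cont : ContinuousOn q (Ioi 0) := by
  intro y hy
  have hy0 : (0:ℝ) < y := hy
  have h : ContinuousOn q (Ici (y / 2)) := by
    unfold q
    apply continuousOn_tsum (u := fun k : ℕ => 3 * (y / 2) ^ (-(1 / 4) : ℝ) * (1 / (k : ℝ) ^ (5 / 4 : ℝ)))
    · intro k
      have := U_cont
      fun_prop
    · exact summable_54.mul_left _
    · intro k z hz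
      have hz1 : y / 2 ≤ z := hz
      have hz0 : 0 < z := by linarith
      rw [Real.norm_eq_abs]
      refine (q_term hz0 k).trans ?_
      apply mul_le_mul_of_nonneg_right _ (by positivity)
      apply mul_le_mul_of_nonneg_left _ (by norm_num)
      exact Real.rpow_le_rpow_of_nonpos (by linarith) hz1 (by norm_num)
  have h2 : ContinuousAt q y := (h y (by show y / 2 ≤ y; linarith)).continuousAt (Ici_mem_nhds (by linarith))
  exact h2.continuousWithinAt

theorem II_cont : ContinuousOn II (Ioi 0) := by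
  intro y hy
  have hy0 : (0:ℝ) < y := hy
  have hC := Cq_nonneg
  have h : ContinuousOn II (Ici (y / 2)) := by
    unfold II
    apply ContinuousOn.mul continuousOn_const
    apply continuousOn_tsum (u := fun m : ℕ => Cq * (y / 2) ^ (-(1 / 4) : ℝ) * (1 / (m : ℝ) ^ (3 / 2 : ℝ)))
    · intro m
      rcases Nat.eq_zero_or_pos m with h | h
      · subst h
        simp only [Nat.cast_zero, div_zero, zero_mul]
        exact continuousOn_const
      have hm0 : (0:ℝ) < m := by exact_mod_cast h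
      apply ContinuousOn.mul continuousOn_const
      apply q_cont.comp (by fun_prop)
      intro z hz
      have hz1 : y / 2 ≤ z := hz
      have hz0 : 0 < z := by linarith
      show 0 < (m : ℝ) ^ 2 * z
      positivity
    · exact summable_32.mul_left _
    · intro m z hz
      have hz1 : y / 2 ≤ z := hz
      have hz0 : 0 < z := by linarith
      rw [Real.norm_eq_abs]
      refine (II_term hz0 m).trans ?_
      apply mul_le_mul_of_nonneg_right _ (by positivity)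
      apply mul_le_mul_of_nonneg_left _ hC
      exact Real.rpow_le_rpow_of_nonpos (by linarith) hz1 (by norm_num)
  have h2 : ContinuousAt II y := (h y (by show y / 2 ≤ y; linarith)).continuousAt (Ici_mem_nhds (by linarith))
  exact h2.continuousWithinAt

theorem qK_int {N : ℝ} (hN : 0 < N) : IntegrableOn (fun y => q (N / y) * K y) (Ioi 0) ∧
    (∫ y in Ioi (0:ℝ), ‖q (N / y) * K y‖) ≤ Cq * N ^ (-(1 / 4) : ℝ) * XR (5 / 4) := by
  have hKi := int_rpow_K (5 / 4)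
  have hb : ∀ y ∈ Ioi (0:ℝ), ‖q (N / y) * K y‖ ≤ Cq * N ^ (-(1 / 4) : ℝ) * (y ^ ((5 / 4 : ℝ) - 1) * K y) := by
    intro y hy
    have hy0 : (0:ℝ) < y := hy
    have hK := K_pos hy0
    rw [norm_mul, Real.norm_eq_abs, Real.norm_eq_abs, abs_of_pos hK]
    have h1 := q_le (y := N / y) (by positivity)
    rw [Real.div_rpow hN.le hy0.le, Real.rpow_neg hy0.le, div_inv_eq_mul] at h1
    calc |q (N / y)| * K y ≤ (Cq * (N ^ (-(1 / 4) : ℝ) * y ^ (1 / 4 : ℝ))) * K y :=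
          mul_le_mul_of_nonneg_right h1 hK.le
      _ = _ := by norm_num; ring
  have hm : AEStronglyMeasurable (fun y => q (N / y) * K y) (volume.restrict (Ioi 0)) := by
    apply AEStronglyMeasurable.mul
    · have := q_meas
      exact (this.comp (by fun_prop : Measurable (fun y : ℝ => N / y))).aestronglyMeasurable
    · have h0 : AEStronglyMeasurable (fun y : ℝ => y ^ ((1:ℝ) - 1) * K y) (volume.restrict (Ioi 0)) :=
        (int_rpow_K 1).aestronglyMeasurable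
      simpa using h0
  have hi : IntegrableOn (fun y => q (N / y) * K y) (Ioi 0) := by
    refine Integrable.mono' (hKi.const_mul (Cq * N ^ (-(1 / 4) : ℝ))) hm ?_
    filter_upwards [self_mem_ae_restrict measurableSet_Ioi] with y hy
    exact hb y hy
  refine ⟨hi, ?_⟩
  unfold XR
  rw [← integral_const_mul]
  exact setIntegral_mono_on hi.norm (hKi.const_mul _) measurableSet_Ioi hb

/-- average of the dual part -/
theorem II_conv {x : ℝ} (hx : 0 < x) : ∫ y in Ioi (0:ℝ), II (x / y) * K y = ∑' m : ℕ+, Gt ((m : ℕ) * √x) / (m : ℕ) := by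
  have hm0 : ∀ m : ℕ+, (0 : ℝ) < ((m : ℕ) : ℝ) := fun n => by exact_mod_cast n.pos
  set F : ℕ+ → ℝ → ℝ := fun m y => 2 * (1 / ((m : ℕ) : ℝ)) * (q ((((m : ℕ) : ℝ) ^ 2 * x) / y) * K y) with hF
  have hint : ∀ m : ℕ+, Integrable (F m) (volume.restrict (Ioi 0)) := fun m =>
    ((qK_int (N := ((m : ℕ) : ℝ) ^ 2 * x) (by have := hm0 m; positivity)).1).const_mul _
  have hval : ∀ m : ℕ+, (∫ y in Ioi (0:ℝ), F m y) = Gt ((m : ℕ) * √x) / (m : ℕ) := by
    intro m
    have h1 := q_conv (x := ((m : ℕ) : ℝ) ^ 2 * x) (by have := hm0 m; positivity)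
    simp only [hF]
    rw [integral_const_mul, h1, Real.sqrt_mul (by positivity), Real.sqrt_sq (hm0 m).le]
    ring
  have hnorm : ∀ m : ℕ+, (∫ y in Ioi (0:ℝ), ‖F m y‖) ≤
      (2 * (Cq * x ^ (-(1 / 4) : ℝ) * XR (5 / 4))) * (1 / ((m : ℕ) : ℝ) ^ (3 / 2 : ℝ)) := by
    intro m
    have h1 := (qK_int (N := ((m : ℕ) : ℝ) ^ 2 * x) (by have := hm0 m; positivity)).2
    simp only [hF]
    simp_rw [norm_mul (2 * (1 / ((m : ℕ) : ℝ)))]
    rw [integral_const_mul, Real.norm_of_nonneg (by positivity : 0 ≤ 2 * (1 / ((m : ℕ) : ℝ)))]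
    rw [sq_rpow_neg m.pos hx] at h1
    calc _ ≤ 2 * (1 / ((m : ℕ) : ℝ)) * (Cq * (x ^ (-(1 / 4) : ℝ) * ((m : ℕ) : ℝ) ^ (-(1 / 2) : ℝ)) * XR (5 / 4)) :=
          mul_le_mul_of_nonneg_left h1 (by positivity)
      _ = (2 * (Cq * x ^ (-(1 / 4) : ℝ) * XR (5 / 4))) * (1 / ((m : ℕ) : ℝ) * ((m : ℕ) : ℝ) ^ (-(1 / 2) : ℝ)) := by ring
      _ = _ := by rw [inv_rpow_32 m.pos]
  have hsum : Summable fun m : ℕ+ => ∫ y in Ioi (0:ℝ), ‖F m y‖ := by
    apply Summable.of_nonneg_of_le (fun p => integral_nonneg (fun _ => norm_nonneg _)) hnorm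
    exact (summable_32.comp_injective PNat.coe_injective).mul_left _
  have hS := hasSum_integral_of_summable_integral_norm hint hsum
  simp_rw [hval] at hS
  rw [hS.tsum_eq]
  apply setIntegral_congr_fun measurableSet_Ioi
  intro y hy
  have hy0 : (0 : ℝ) < y := hy
  simp only [hF, II]
  have hs := II_summable (x := x / y) (by positivity)
  rw [hs.tsum_eq_zero_add]
  simp only [Nat.cast_zero, div_zero, zero_mul, zero_add]
  have e1 : ∑' m : ℕ+, 2 * (1 / ((m : ℕ) : ℝ)) * (q ((((m : ℕ) : ℝ) ^ 2 * x) / y) * K y) =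
      (2 * K y) * ∑' m : ℕ+, 1 / ((m : ℕ) : ℝ) * q (((m : ℕ) : ℝ) ^ 2 * (x / y)) := by
    rw [← tsum_mul_left]
    apply tsum_congr
    intro m
    rw [mul_div_assoc]; ring
  rw [e1, tsum_pnat_eq_tsum_succ (f := fun m : ℕ => 1 / (m : ℝ) * q ((m : ℝ) ^ 2 * (x / y)))]
  push_cast
  ring

end Pool.Agent.Helper71.LA
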