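import Pool.Agent.Helper71.LA.II
import Pool.Agent.Helper71.MA.Dec
import Pool.Agent.Helper71.MA.Main
import Pool.Agent.Helper18.ES.Lam2

open Complex Filter Topology MeasureTheory Set
open Pool.Agent.Helper57.Zeta
open Pool.Agent.Helper71.MR Pool.Agent.Helper71.MA
open Pool.Agent.Helper18.ES (kap K K_inv K_pos mu mu_le Phi GA S lam lam_le kp GA_lam GA_lam_bound XR XR_pos bb bb_mul AL
  adm_AL adm_S GA_AL GA_AL_bound mellin_AL_ne P GA_le_cube Adm)

namespace Pool.Agent.Helper71.LA

theorem kp_val : Psh 0 / 2 = kp := by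
  obtain ⟨V, hV0, hV⟩ := GA_lam_bound
  obtain ⟨C, hC0, hC⟩ := Gt_bd
  have hsum2 : Summable (fun m : ℕ+ => 1 / (((m : ℕ) : ℝ)) ^ 2) :=
    (Real.summable_one_div_nat_pow.mpr (show 1 < 2 by norm_num)).comp_injective PNat.coe_injective
  set Z : ℝ := ∑' m : ℕ+, 1 / (((m : ℕ) : ℝ)) ^ 2 with hZ
  have hZ0 : 0 ≤ Z := tsum_nonneg (fun m => by positivity)
  have key : ∀ z : ℝ, 1 ≤ z → |√z * (Psh 0 / 2 - kp)| ≤ V + 1 / 2 + C * Z := by
    intro z hz
    have hz0 : 0 < z := by linarith
    have hr : 1 ≤ √z := by rw [Real.one_le_sqrt]; exact hz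
    have h1 := hV z hz0
    rw [← (GA_lam hz0).tsum_eq, poisson hz0] at h1
    have h2 : |∑' m : ℕ+, Gt ((m : ℕ) * √z) / (m : ℕ)| ≤ C * Z := by
      have h3 := tsum_of_norm_bounded (f := fun m : ℕ+ => Gt ((m : ℕ) * √z) / (m : ℕ)) (hsum2.hasSum.mul_left C) (by
        intro m
        have hm : (0:ℝ) < (m : ℕ) := by exact_mod_cast m.pos
        rw [norm_div, Real.norm_eq_abs, Real.norm_of_nonneg hm.le]
        have h4 := hC ((m : ℕ) * √z) (by positivity)
        calc |Gt ((m : ℕ) * √z)| / (m : ℕ) ≤ (C / ((m : ℕ) * √z)) / (m : ℕ) := div_le_div_of_nonneg_right h4 hm.le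
          _ ≤ (C / ((m : ℕ) * 1)) / (m : ℕ) := by gcongr
          _ = _ := by field_simp)
      exact h3
    have e : √z * (Psh 0 / 2 - kp) = (1 / 2 + √z * (Psh 0 / 2) + ∑' m : ℕ+, Gt ((m : ℕ) * √z) / (m : ℕ) - √z * kp) -
        1 / 2 - ∑' m : ℕ+, Gt ((m : ℕ) * √z) / (m : ℕ) := by ring
    rw [abs_le] at h1 h2 ⊢
    constructor <;> linarith [h1.1, h1.2, h2.1, h2.2]
  by_contra hne
  have hD : 0 < |Psh 0 / 2 - kp| := abs_pos.mpr (sub_ne_zero.mpr hne)
  set D : ℝ := |Psh 0 / 2 - kp| with hDd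
  set W : ℝ := V + 1 / 2 + C * Z with hW
  have hW0 : 0 < W := by positivity
  have h5 := key ((1 + (W + 1) / D) ^ 2) (by
    have : 0 ≤ (W + 1) / D := by positivity
    nlinarith)
  rw [Real.sqrt_sq (by positivity), abs_mul, abs_of_pos (by positivity : 0 < 1 + (W + 1) / D), ← hDd] at h5
  have h6 : (1 + (W + 1) / D) * D = D + W + 1 := by field_simp; ring
  rw [h6] at h5
  linarith

theorem κ0_val : κ0 = XR (1 / 2) := by
  unfold κ0 XR
  rw [int_exp_sub]
  apply integral_congr_ae
  filter_upwards with u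
  unfold kr
  rw [← Real.exp_mul, ← mul_assoc, ← Real.exp_add, mul_comm]
  congr 2; ring

theorem bb_κ0 : bb * κ0 = kp := by rw [κ0_val, bb_mul]

/-- the part on the right -/
noncomputable def l1 (t : ℝ) : ℝ := AL (Real.exp t) * Real.exp (-t / 2)

/-- the error function -/
noncomputable def el (y : ℝ) : ℝ := ∫ u : ℝ, l1 (y + u) * kr u

theorem el_eq (y : ℝ) : el y = Real.exp (-y / 2) * GA AL (Real.exp y) := by
  unfold el
  rw [GA_log, ← integral_const_mul]
  apply integral_congr_ae
  filter_upwards with u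
  unfold l1 kr
  have : Real.exp (-(y + u) / 2) * Real.exp (u / 2) = Real.exp (-y / 2) := by
    rw [← Real.exp_add]; congr 1; ring
  rw [← this]; ring

theorem l1_meas : Measurable l1 := by
  unfold l1
  have := adm_AL.meas
  fun_prop

theorem el_meas : Measurable el := by
  have h : StronglyMeasurable (fun s : ℝ => ∫ v : ℝ, (fun s v : ℝ => l1 (s + v) * kr v) s v) := by
    apply StronglyMeasurable.integral_prod_right (f := fun s v : ℝ => l1 (s + v) * kr v)
    apply Measurable.stronglyMeasurable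
    simp only [Function.uncurry_def]
    have := kr_cont.measurable
    have := l1_meas
    fun_prop
  exact h.measurable

theorem l1_bd (t : ℝ) : |l1 t| ≤ (1 + |bb|) * Real.exp (t / 2) := by
  unfold l1
  rw [abs_mul, abs_of_pos (Real.exp_pos _)]
  have hA := adm_AL
  rcases lt_or_ge t 0 with h | h
  · rw [hA.zero (Real.exp t) (Real.exp_lt_one_iff.2 h), abs_zero, zero_mul]
    positivity
  · have h1 := hA.bound (Real.exp t) (Real.one_le_exp h)
    calc |AL (Real.exp t)| * Real.exp (-t / 2) ≤ ((1 + |bb|) * Real.exp t) * Real.exp (-t / 2) :=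
          mul_le_mul_of_nonneg_right h1 (Real.exp_pos _).le
      _ = _ := by rw [mul_assoc, ← Real.exp_add]; congr 2; ring

theorem el_bd : ∃ B : ℝ, 0 ≤ B ∧ ∀ y, |el y| ≤ B * Real.exp (-(1 / 2 * |y|)) := by
  obtain ⟨B, hB0, hB⟩ := GA_AL_bound
  obtain ⟨C, hC0, hC⟩ := GA_le_cube adm_AL
  refine ⟨B + C, by positivity, fun y => ?_⟩
  rw [el_eq, abs_mul, abs_of_pos (Real.exp_pos _)]
  rcases le_total 0 y with h | h
  · rw [abs_of_nonneg h]
    have h1 := hB (Real.exp y) (Real.exp_pos y)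
    have e : Real.exp (-y / 2) = Real.exp (-(1 / 2 * y)) := by congr 1; ring
    rw [e]
    have := Real.exp_pos (-(1 / 2 * y))
    nlinarith
  · rw [abs_of_nonpos h]
    have h1 := hC (Real.exp y) (Real.exp_pos y)
    have e1 : Real.exp (-y / 2) * Real.exp y ^ 3 ≤ Real.exp (-(1 / 2 * -y)) := by
      rw [← Real.exp_nat_mul, ← Real.exp_add]
      apply Real.exp_le_exp.mpr
      push_cast
      linarith
    have e2 := Real.exp_pos (-y / 2)
    have e3 := Real.exp_pos (-(1 / 2 * -y))
    calc Real.exp (-y / 2) * |GA AL (Real.exp y)| ≤ Real.exp (-y / 2) * (C * Real.exp y ^ 3) :=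
          mul_le_mul_of_nonneg_left h1 e2.le
      _ = C * (Real.exp (-y / 2) * Real.exp y ^ 3) := by ring
      _ ≤ C * Real.exp (-(1 / 2 * -y)) := mul_le_mul_of_nonneg_left e1 hC0
      _ ≤ _ := by nlinarith

/-- the whole function -/
noncomputable def Lf (t : ℝ) : ℝ := (S lam (Real.exp t) - 1 - II (Real.exp t)) * Real.exp (-t / 2) - bb

/-- the part on the left -/
noncomputable def l2 (t : ℝ) : ℝ := Lf t - l1 t

theorem l2_eq (t : ℝ) : l2 t = (-1 - II (Real.exp t)) * Real.exp (-t / 2) - if t < 0 then bb else 0 := by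
  unfold l2 Lf l1 AL P
  rcases lt_or_ge t 0 with h | h
  · rw [if_pos h, indicator_of_notMem (by simp only [mem_Ici, not_le]; exact Real.exp_lt_one_iff.2 h)]
    ring
  · rw [if_neg (not_lt.mpr h), indicator_of_mem (by exact Real.one_le_exp h)]
    have h1 : √(Real.exp t) * Real.exp (-t / 2) = 1 := by
      rw [Real.sqrt_eq_rpow, ← Real.exp_mul, ← Real.exp_add, show t * (1 / 2) + -t / 2 = 0 by ring, Real.exp_zero]
    linear_combination bb * h1

theorem Lf_meas : Measurable Lf := by
  unfold Lf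
  have := (adm_S lam_le).meas
  have := II_meas
  fun_prop

theorem IIexp_le (t : ℝ) : |II (Real.exp t)| ≤ CI * Real.exp (-t / 4) := by
  have h1 := II_le (Real.exp_pos t)
  have h2 : (Real.exp t) ^ (-(1 / 4) : ℝ) = Real.exp (-t / 4) := by
    rw [← Real.exp_mul]; congr 1; ring
  rwa [h2] at h1

theorem l2_bd (t : ℝ) : |l2 t| ≤ (1 + CI + |bb|) * (Real.exp (-t / 2) + Real.exp (-(3 * t / 4))) := by
  rw [l2_eq]
  have h1 := IIexp_le t
  have hC := CI_nonneg
  have h4 : Real.exp (-t / 4) * Real.exp (-t / 2) = Real.exp (-(3 * t / 4)) := by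
    rw [← Real.exp_add]; congr 1; ring
  have e1 := Real.exp_pos (-t / 2)
  have e2 := Real.exp_pos (-(3 * t / 4))
  have hb := abs_nonneg bb
  have h3 : |(-1 - II (Real.exp t)) * Real.exp (-t / 2)| ≤ Real.exp (-t / 2) + CI * Real.exp (-(3 * t / 4)) := by
    rw [abs_mul, abs_of_pos e1]
    have h5 : |-1 - II (Real.exp t)| ≤ 1 + CI * Real.exp (-t / 4) := by
      rw [abs_le] at h1 ⊢
      constructor <;> linarith [h1.1, h1.2]
    calc _ ≤ (1 + CI * Real.exp (-t / 4)) * Real.exp (-t / 2) := mul_le_mul_of_nonneg_right h5 e1.le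
      _ = _ := by rw [← h4]; ring
  have h6 : |(if t < 0 then bb else 0 : ℝ)| ≤ |bb| * Real.exp (-t / 2) := by
    split_ifs with h
    · have : 1 ≤ Real.exp (-t / 2) := Real.one_le_exp (by linarith)
      nlinarith
    · rw [abs_zero]; positivity
  have h7 := abs_sub ((-1 - II (Real.exp t)) * Real.exp (-t / 2)) (if t < 0 then bb else 0)
  nlinarith [mul_nonneg hC e1.le, mul_nonneg hb e1.le, mul_nonneg hb e2.le]

/-- averages of the pieces -/
theorem rint {f : ℝ → ℝ} (hf : Measurable f) {B : ℝ} (hb : ∀ t, |f t| ≤ B * Real.exp (3 / 4 * |t|)) (y : ℝ) :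
    Integrable (fun s : ℝ => f (y + s) * kr s) := by
  obtain ⟨C, hC⟩ := dk_kr
  have h := (ms_kernel_int hC hf hb y).re
  refine h.congr ?_
  filter_upwards with s
  simp

theorem Lf_conv (y : ℝ) : ∫ u : ℝ, Lf (y + u) * kr u = 0 := by
  set f1 : ℝ → ℝ := fun t => S lam (Real.exp t) * Real.exp (-t / 2) with hf1
  set f2 : ℝ → ℝ := fun t => Real.exp (-t / 2) with hf2
  set f3 : ℝ → ℝ := fun t => II (Real.exp t) * Real.exp (-t / 2) with hf3
  have hS := adm_S lam_le
  have m1 : Measurable f1 := by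
    have := hS.meas
    fun_prop
  have m2 : Measurable f2 := by fun_prop
  have m3 : Measurable f3 := by
    have := II_meas
    fun_prop
  have b2 : ∀ t, |f2 t| ≤ 1 * Real.exp (3 / 4 * |t|) := by
    intro t
    simp only [hf2]
    rw [abs_of_pos (Real.exp_pos _), one_mul]
    apply Real.exp_le_exp.mpr
    have := neg_abs_le t
    have := abs_nonneg t
    linarith
  have b1 : ∀ t, |f1 t| ≤ 1 * Real.exp (3 / 4 * |t|) := by
    intro t
    simp only [hf1]
    rw [abs_mul, abs_of_pos (Real.exp_pos _)]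
    rcases lt_or_ge t 0 with h | h
    · rw [hS.zero (Real.exp t) (Real.exp_lt_one_iff.2 h), abs_zero, zero_mul]
      positivity
    · have h1 := hS.bound (Real.exp t) (Real.one_le_exp h)
      calc |S lam (Real.exp t)| * Real.exp (-t / 2) ≤ (1 * Real.exp t) * Real.exp (-t / 2) :=
            mul_le_mul_of_nonneg_right h1 (Real.exp_pos _).le
        _ = 1 * Real.exp (t + -t / 2) := by rw [mul_assoc, ← Real.exp_add]
        _ ≤ _ := by
          rw [abs_of_nonneg h, one_mul, one_mul]
          apply Real.exp_le_exp.mpr; linarith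
  have b3 : ∀ t, |f3 t| ≤ CI * Real.exp (3 / 4 * |t|) := by
    intro t
    simp only [hf3]
    rw [abs_mul, abs_of_pos (Real.exp_pos _)]
    calc |II (Real.exp t)| * Real.exp (-t / 2) ≤ (CI * Real.exp (-t / 4)) * Real.exp (-t / 2) :=
          mul_le_mul_of_nonneg_right (IIexp_le t) (Real.exp_pos _).le
      _ = CI * Real.exp (-t / 4 + -t / 2) := by rw [mul_assoc, ← Real.exp_add]
      _ ≤ _ := by
        apply mul_le_mul_of_nonneg_left _ CI_nonneg
        apply Real.exp_le_exp.mpr
        have := neg_abs_le t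
        linarith
  have i1 := rint m1 b1 y
  have i2 := rint m2 b2 y
  have i3 := rint m3 b3 y
  have ik : Integrable kr := kr_int
  have hx := Real.exp_pos y
  have v1 : ∫ u : ℝ, f1 (y + u) * kr u = Real.exp (-y / 2) * GA (S lam) (Real.exp y) := by
    rw [GA_log, ← integral_const_mul]
    apply integral_congr_ae
    filter_upwards with u
    simp only [hf1]
    unfold kr
    have : Real.exp (-(y + u) / 2) * Real.exp (u / 2) = Real.exp (-y / 2) := by
      rw [← Real.exp_add]; congr 1; ring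
    rw [← this]; ring
  have v2 : ∫ u : ℝ, f2 (y + u) * kr u = Real.exp (-y / 2) * (1 / 2) := by
    rw [← K_exp_int, ← integral_const_mul]
    apply integral_congr_ae
    filter_upwards with u
    simp only [hf2]
    unfold kr
    have : Real.exp (-(y + u) / 2) * Real.exp (u / 2) = Real.exp (-y / 2) := by
      rw [← Real.exp_add]; congr 1; ring
    rw [← this]; ring
  have v3 : ∫ u : ℝ, f3 (y + u) * kr u = Real.exp (-y / 2) * ∑' m : ℕ+, Gt ((m : ℕ) * √(Real.exp y)) / (m : ℕ) := by
    rw [← II_conv hx, int_exp_sub, ← integral_const_mul, ← integral_neg_eq_self]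
    apply integral_congr_ae
    filter_upwards with u
    simp only [hf3]
    have h5 := K_inv (Real.exp_pos u)
    rw [one_div, ← Real.exp_neg] at h5
    have h6 : Real.exp y / Real.exp u = Real.exp (y + -u) := by rw [← Real.exp_sub]; congr 1
    unfold kr
    rw [h6, h5]
    have : Real.exp (-(y + -u) / 2) * Real.exp (-u / 2) = Real.exp (-y / 2) := by
      rw [← Real.exp_add]; congr 1; ring
    rw [← this]; ring
  have e0 : (∫ u : ℝ, Lf (y + u) * kr u) = ∫ u : ℝ, (f1 (y + u) * kr u - f2 (y + u) * kr u - f3 (y + u) * kr u - bb * kr u) := by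
    apply integral_congr_ae
    filter_upwards with u
    simp only [hf1, hf2, hf3]
    unfold Lf
    ring
  have i12 : Integrable (fun u : ℝ => f1 (y + u) * kr u - f2 (y + u) * kr u) := i1.sub i2
  have i123 : Integrable (fun u : ℝ => f1 (y + u) * kr u - f2 (y + u) * kr u - f3 (y + u) * kr u) := i12.sub i3
  rw [e0, integral_sub i123 (ik.const_mul bb), integral_sub i12 i3, integral_sub i1 i2,
    integral_const_mul, v1, v2, v3]
  have h7 : bb * ∫ u : ℝ, kr u = kp := bb_κ0
  rw [h7, ← (GA_lam hx).tsum_eq, poisson hx, kp_val]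
  have h8 : Real.exp (-y / 2) * √(Real.exp y) = 1 := by
    rw [Real.sqrt_eq_rpow, ← Real.exp_mul, ← Real.exp_add, show -y / 2 + y * (1 / 2) = 0 by ring, Real.exp_zero]
  linear_combination kp * h8

theorem Lf_bd (t : ℝ) : |Lf t| ≤ (1 + |bb| + 2 * (1 + CI + |bb|)) * Real.exp (3 / 4 * |t|) := by
  have h1 := l1_bd t
  have h2 := l2_bd t
  have hC := CI_nonneg
  have hb := abs_nonneg bb
  have e : Lf t = l1 t + l2 t := by unfold l2; ring
  have e1 : Real.exp (t / 2) ≤ Real.exp (3 / 4 * |t|) := by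
    apply Real.exp_le_exp.mpr
    have := le_abs_self t
    have := abs_nonneg t
    linarith
  have e2 : Real.exp (-t / 2) ≤ Real.exp (3 / 4 * |t|) := by
    apply Real.exp_le_exp.mpr
    have := neg_abs_le t
    have := abs_nonneg t
    linarith
  have e3 : Real.exp (-(3 * t / 4)) ≤ Real.exp (3 / 4 * |t|) := by
    apply Real.exp_le_exp.mpr
    have := neg_abs_le t
    have := abs_nonneg t
    linarith
  rw [e]
  have h3 := abs_add_le (l1 t) (l2 t)
  have h4 := mul_le_mul_of_nonneg_left e1 (by positivity : 0 ≤ 1 + |bb|)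
  have h5 := mul_le_mul_of_nonneg_left (add_le_add e2 e3) (by positivity : 0 ≤ 1 + CI + |bb|)
  linarith

theorem l2_conv (y : ℝ) : ∫ u : ℝ, l2 (y + u) * kr u = -el y := by
  have i1 := rint Lf_meas Lf_bd y
  have hl : ∀ t, |l1 t| ≤ (1 + |bb|) * Real.exp (3 / 4 * |t|) := by
    intro t
    refine (l1_bd t).trans (mul_le_mul_of_nonneg_left ?_ (by positivity))
    apply Real.exp_le_exp.mpr
    have := le_abs_self t
    have := abs_nonneg t
    linarith
  have i2 := rint l1_meas hl y
  have e : (∫ u : ℝ, l2 (y + u) * kr u) = ∫ u : ℝ, (Lf (y + u) * kr u - l1 (y + u) * kr u) := by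
    apply integral_congr_ae
    filter_upwards with u
    unfold l2; ring
  rw [e, integral_sub i1 i2, Lf_conv, zero_sub]
  rfl

theorem l2_meas : Measurable l2 := Lf_meas.sub l1_meas

theorem dec : ∃ B : ℝ, Dec l1 l2 el (1 + CI + |bb|) B := by
  obtain ⟨B, hB0, hB⟩ := el_bd
  have hC := CI_nonneg
  refine ⟨B, l1_meas, l2_meas, el_meas, by positivity, ?_, l2_bd, hB, ?_, ?_⟩
  · intro t
    refine (l1_bd t).trans (mul_le_mul_of_nonneg_right ?_ (Real.exp_pos _).le)
    linarith
  · intro y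
    unfold el
    rw [← integral_complex_ofReal]
    apply integral_congr_ae
    filter_upwards with s
    push_cast; rfl
  · intro y
    have h := l2_conv y
    have h2 : ((-el y : ℝ) : ℂ) = -(el y : ℂ) := by push_cast; rfl
    rw [← h2, ← h, ← integral_complex_ofReal]
    apply integral_congr_ae
    filter_upwards with s
    push_cast; rfl

theorem Lf_right (t₀ : ℝ) : Tendsto Lf (𝓝[≥] t₀) (𝓝 (Lf t₀)) := by
  unfold Lf
  apply Tendsto.sub _ tendsto_const_nhds
  apply Tendsto.mul
  · apply Tendsto.sub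
    · apply Tendsto.sub _ tendsto_const_nhds
      apply tendsto_nhds_of_eventually_eq
      have h1 : Real.exp t₀ < (⌊Real.exp t₀⌋₊ : ℝ) + 1 := Nat.lt_floor_add_one _
      have h2 : ∀ᶠ t in 𝓝[≥] t₀, Real.exp t < (⌊Real.exp t₀⌋₊ : ℝ) + 1 := by
        apply Filter.Eventually.filter_mono nhdsWithin_le_nhds
        exact (Real.continuous_exp.tendsto t₀).eventually (gt_mem_nhds h1)
      filter_upwards [h2, self_mem_nhdsWithin] with t ht ht2
      have h3 : ⌊Real.exp t⌋₊ = ⌊Real.exp t₀⌋₊ := by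
        rw [Nat.floor_eq_iff (Real.exp_pos t).le]
        refine ⟨(Nat.floor_le (Real.exp_pos t₀).le).trans (Real.exp_le_exp.mpr ht2), ht⟩
      unfold S
      rw [h3]
    · apply Filter.Tendsto.mono_left _ nhdsWithin_le_nhds
      have h := (II_cont.continuousAt (Ioi_mem_nhds (Real.exp_pos t₀))).tendsto
      exact h.comp (Real.continuous_exp.tendsto t₀)
  · apply Filter.Tendsto.mono_left _ nhdsWithin_le_nhds
    apply Continuous.tendsto
    fun_prop

theorem l_sum (t : ℝ) : l1 t + l2 t = Lf t := by unfold l2; ring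

theorem sys : ∃ A : ℝ, Sys Lf A (cf el) := by
  obtain ⟨B, hd⟩ := dec
  have h := hd.sys (by
    intro t
    simp_rw [l_sum]
    exact Lf_right t)
  simp_rw [l_sum] at h
  exact ⟨_, h⟩

theorem cf_eq (w : ℂ) : cf el w = mellin (fun z : ℝ => (GA AL z : ℂ)) (-(1 / 2 + w)) := by
  have h := lap_eq_mellin (fun t : ℝ => (GA AL (Real.exp t) : ℂ)) (1 / 2 + w)
  have h2 : mellin (fun x : ℝ => (fun t : ℝ => (GA AL (Real.exp t) : ℂ)) (-Real.log x)) (1 / 2 + w) =
      mellin (fun x : ℝ => (fun z : ℝ => (GA AL z : ℂ)) x⁻¹) (1 / 2 + w) := by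
    unfold mellin
    apply setIntegral_congr_fun measurableSet_Ioi
    intro x hx
    have hx0 : (0:ℝ) < x := hx
    simp only
    rw [Real.exp_neg, Real.exp_log hx0]
  have h3 := mellin_comp_inv (fun z : ℝ => (GA AL z : ℂ)) (1 / 2 + w)
  rw [← h3, ← h2, ← h]
  unfold cf lap
  apply integral_congr_ae
  filter_upwards with s
  rw [el_eq]
  push_cast
  rw [show (-((1 / 2 + w) * (s : ℂ))) = (-(s:ℂ) / 2) + (-(w * s)) by ring, Complex.exp_add]
  ring

theorem ne_el : Pool.Agent.Helper71.MA.Ne (cf el) 1 := by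
  intro w hw h0
  rw [one_mul] at h0
  have h := abs_lt.mp (zero_re hw)
  have hre : (1 / 2 + w).re = 1 / 2 + w.re := by simp
  rw [cf_eq]
  apply mellin_AL_ne hw
  · rw [hre]; linarith
  · rw [hre]; linarith

end Pool.Agent.Helper71.LA
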