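import Pool.Agent.Helper71.LA.Gt

open Complex Filter Topology MeasureTheory Set
open scoped FourierTransform
open Pool.Agent.Helper18.ES (kap Phi GA S lam kp GA_lam GA_lam_bound)
open Pool.Agent.Helper71.MR (kap_fourier kap_int kap_even kap_zero_int)

namespace Pool.Agent.Helper71.LA

theorem Psh_even (z : ℝ) : Psh (-z) = Psh z := by
  unfold Psh
  apply integral_congr_ae
  filter_upwards with t
  rw [show 2 * Real.pi * -z * t = -(2 * Real.pi * z * t) by ring, Real.cos_neg]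

theorem Phix_int {x : ℝ} (hx : 0 < x) : Integrable (fun t : ℝ => Phi (t ^ 2 / x)) := by
  have h := Phisq_int.comp_div (Real.sqrt_pos.mpr hx).ne'
  refine h.congr ?_
  filter_upwards with t
  rw [div_pow, Real.sq_sqrt hx.le]

theorem fourier_Phix {x : ℝ} (hx : 0 < x) (ξ : ℝ) : 𝓕 (fun t : ℝ => (Phi (t ^ 2 / x) : ℂ)) ξ =
    ((√x * Psh (ξ * √x) : ℝ) : ℂ) := by
  have hr := Real.sqrt_pos.mpr hx
  rw [Real.fourier_real_eq_integral_exp_smul]
  have i0 := Phix_int hx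
  have ic : Integrable (fun t : ℝ => Real.cos (2 * Real.pi * t * ξ) * Phi (t ^ 2 / x)) := by
    refine i0.bdd_mul (c := 1) (f := fun t : ℝ => Real.cos (2 * Real.pi * t * ξ)) ?_ ?_
    · apply Continuous.aestronglyMeasurable; fun_prop
    · filter_upwards with t
      exact Real.abs_cos_le_one _
  have is : Integrable (fun t : ℝ => Real.sin (2 * Real.pi * t * ξ) * Phi (t ^ 2 / x)) := by
    refine i0.bdd_mul (c := 1) (f := fun t : ℝ => Real.sin (2 * Real.pi * t * ξ)) ?_ ?_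
    · apply Continuous.aestronglyMeasurable; fun_prop
    · filter_upwards with t
      exact Real.abs_sin_le_one _
  have e1 : ∫ t : ℝ, cexp ((-2 * Real.pi * t * ξ : ℝ) * Complex.I) • ((Phi (t ^ 2 / x) : ℝ) : ℂ) =
      ((∫ t : ℝ, Real.cos (2 * Real.pi * t * ξ) * Phi (t ^ 2 / x) : ℝ) : ℂ) -
      ((∫ t : ℝ, Real.sin (2 * Real.pi * t * ξ) * Phi (t ^ 2 / x) : ℝ) : ℂ) * Complex.I := by
    rw [← integral_complex_ofReal, ← integral_complex_ofReal, ← integral_mul_const, ← integral_sub ic.ofReal (is.ofReal.mul_const _)]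
    apply integral_congr_ae
    filter_upwards with t
    rw [smul_eq_mul, show (-2 * Real.pi * t * ξ) = -(2 * Real.pi * t * ξ) by ring, Complex.exp_mul_I,
      ← Complex.ofReal_cos, ← Complex.ofReal_sin, Real.cos_neg, Real.sin_neg]
    push_cast; ring
  have e2 : ∫ t : ℝ, Real.sin (2 * Real.pi * t * ξ) * Phi (t ^ 2 / x) = 0 := by
    have h := integral_neg_eq_self (fun t : ℝ => Real.sin (2 * Real.pi * t * ξ) * Phi (t ^ 2 / x)) volume
    have h2 : ∫ t : ℝ, Real.sin (2 * Real.pi * -t * ξ) * Phi ((-t) ^ 2 / x) =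
        -∫ t : ℝ, Real.sin (2 * Real.pi * t * ξ) * Phi (t ^ 2 / x) := by
      rw [← integral_neg]
      apply integral_congr_ae
      filter_upwards with t
      rw [show 2 * Real.pi * -t * ξ = -(2 * Real.pi * t * ξ) by ring, Real.sin_neg, neg_sq]
      ring
    linarith
  have e3 : ∫ t : ℝ, Real.cos (2 * Real.pi * t * ξ) * Phi (t ^ 2 / x) = √x * Psh (ξ * √x) := by
    have h := Measure.integral_comp_mul_left (fun t : ℝ => Real.cos (2 * Real.pi * t * ξ) * Phi (t ^ 2 / x)) (√x)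
    have h2 : ∫ t : ℝ, Real.cos (2 * Real.pi * (√x * t) * ξ) * Phi ((√x * t) ^ 2 / x) = Psh (ξ * √x) := by
      unfold Psh
      apply integral_congr_ae
      filter_upwards with t
      rw [mul_pow, Real.sq_sqrt hx.le, mul_div_assoc, show x * (t ^ 2 / x) = t ^ 2 by field_simp,
        show 2 * Real.pi * (√x * t) * ξ = 2 * Real.pi * (ξ * √x) * t by ring]
      ring
    rw [h2, abs_of_pos (by positivity), smul_eq_mul] at h
    rw [h, ← mul_assoc, mul_inv_cancel₀ hr.ne', one_mul]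
  rw [e1, e2, e3]
  simp

theorem Psh_term {x : ℝ} (hx : 0 < x) (m : ℕ+) : √x * Psh (m * √x) = Gt (m * √x) / m := by
  have hm : (0:ℝ) < (m : ℕ) := by exact_mod_cast m.pos
  have hr := Real.sqrt_pos.mpr hx
  rw [Gt_eq (by positivity)]
  field_simp

theorem Gt_summable {x : ℝ} (hx : 0 < x) : Summable (fun m : ℕ+ => Gt (m * √x) / m) := by
  obtain ⟨C, hC0, hC⟩ := Gt_bd
  have hr := Real.sqrt_pos.mpr hx
  have h := (Real.summable_one_div_nat_pow.mpr (show 1 < 2 by norm_num)).comp_injective PNat.coe_injective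
  refine Summable.of_norm_bounded (h.mul_left (C / √x)) ?_
  intro m
  have hm : (0:ℝ) < (m : ℕ) := by exact_mod_cast m.pos
  rw [norm_div, Real.norm_eq_abs, Real.norm_of_nonneg hm.le]
  have h1 := hC (m * √x) (by positivity)
  calc |Gt (m * √x)| / (m : ℕ) ≤ (C / (m * √x)) / (m : ℕ) := div_le_div_of_nonneg_right h1 hm.le
    _ = _ := by simp only [Function.comp_apply]; field_simp

theorem Psh_summable {x : ℝ} (hx : 0 < x) : Summable (fun n : ℤ => √x * Psh (n * √x)) := by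
  obtain ⟨C, hC0, hC⟩ := Gt_bd
  have hr := Real.sqrt_pos.mpr hx
  have h := (Real.summable_abs_int_rpow (b := 2) (by norm_num)).mul_left (C / √x)
  refine Summable.of_norm_bounded_eventually h ?_
  have hc : ∀ᶠ n : ℤ in cofinite, n ≠ 0 := by
    rw [eventually_cofinite]
    simp
  filter_upwards [hc] with n hn
  have hn0 : (0:ℝ) < |(n : ℝ)| := abs_pos.mpr (by exact_mod_cast hn)
  have e1 : Psh (n * √x) = Psh (|(n : ℝ)| * √x) := by
    rcases abs_choice (n : ℝ) with h | h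
    · rw [h]
    · rw [h, neg_mul, Psh_even]
  have e2 := Gt_eq (z := |(n : ℝ)| * √x) (by positivity)
  have e3 := hC (|(n : ℝ)| * √x) (by positivity)
  rw [e2, abs_mul, abs_of_pos (by positivity : 0 < |(n : ℝ)| * √x)] at e3
  rw [e1, norm_mul, Real.norm_of_nonneg hr.le, Real.norm_eq_abs, Real.rpow_neg hn0.le]
  have e4 : |(n : ℝ)| ^ (2 : ℝ) = |(n : ℝ)| ^ 2 := by norm_num
  rw [e4]
  have e5 : √x * |Psh (|(n : ℝ)| * √x)| = (|(n : ℝ)| * √x * |Psh (|(n : ℝ)| * √x)|) / |(n : ℝ)| := by field_simp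
  rw [e5]
  calc (|(n : ℝ)| * √x * |Psh (|(n : ℝ)| * √x)|) / |(n : ℝ)| ≤ (C / (|(n : ℝ)| * √x)) / |(n : ℝ)| :=
        div_le_div_of_nonneg_right e3 hn0.le
    _ = _ := by field_simp

theorem Phix_summable {x : ℝ} (hx : 0 < x) : Summable (fun n : ℤ => Phi ((n : ℝ) ^ 2 / x)) := by
  obtain ⟨C, hC0, hC⟩ := Phi_exp
  have h := (Real.summable_abs_int_rpow (b := 2) (by norm_num)).mul_left (C * x)
  refine Summable.of_norm_bounded_eventually h ?_
  have hc : ∀ᶠ n : ℤ in cofinite, n ≠ 0 := by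
    rw [eventually_cofinite]
    simp
  filter_upwards [hc] with n hn
  have hn0 : (0:ℝ) < |(n : ℝ)| := abs_pos.mpr (by exact_mod_cast hn)
  have e1 := hC ((n : ℝ) ^ 2 / x)
  rw [abs_of_nonneg (by positivity : 0 ≤ (n : ℝ) ^ 2 / x)] at e1
  rw [Real.norm_eq_abs, Real.rpow_neg hn0.le]
  have e4 : |(n : ℝ)| ^ (2 : ℝ) = (n : ℝ) ^ 2 := by norm_num
  rw [e4]
  have hn2 : (0:ℝ) < (n : ℝ) ^ 2 := by rw [← sq_abs]; positivity
  have e5 : Real.exp (-((n : ℝ) ^ 2 / x)) ≤ x * ((n : ℝ) ^ 2)⁻¹ := by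
    have h6 : (n : ℝ) ^ 2 / x ≤ Real.exp ((n : ℝ) ^ 2 / x) := by
      have := Real.add_one_le_exp ((n : ℝ) ^ 2 / x); linarith
    rw [Real.exp_neg, show x * ((n : ℝ) ^ 2)⁻¹ = ((n : ℝ) ^ 2 / x)⁻¹ by field_simp]
    exact inv_anti₀ (by positivity) h6
  refine e1.trans ?_
  rw [mul_assoc]
  exact mul_le_mul_of_nonneg_left e5 hC0

theorem poisson {x : ℝ} (hx : 0 < x) : ∑' j : ℕ+, Phi (((j : ℕ) : ℝ) ^ 2 / x) =
    1 / 2 + √x * (Psh 0 / 2) + ∑' m : ℕ+, Gt (m * √x) / m := by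
  obtain ⟨C, hC0, hC⟩ := Phi_exp
  have hf : Continuous (fun t : ℝ => (Phi (t ^ 2 / x) : ℂ)) := by
    have := Phi_cont
    fun_prop
  have hO : (fun t : ℝ => (Phi (t ^ 2 / x) : ℂ)) =O[cocompact ℝ] fun t : ℝ => |t| ^ (-2 : ℝ) := by
    apply Asymptotics.IsBigO.of_bound (C * x)
    have hne : ∀ᶠ t : ℝ in cocompact ℝ, t ≠ 0 := by
      have : ({0} : Set ℝ)ᶜ ∈ cocompact ℝ := isCompact_singleton.compl_mem_cocompact
      filter_upwards [this] with t ht using ht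
    filter_upwards [hne] with t ht
    have ht0 : 0 < |t| := abs_pos.mpr ht
    have e1 := hC (t ^ 2 / x)
    rw [abs_of_nonneg (by positivity : 0 ≤ t ^ 2 / x)] at e1
    rw [Complex.norm_real, Real.norm_eq_abs, Real.norm_of_nonneg (Real.rpow_nonneg ht0.le _), Real.rpow_neg ht0.le]
    have e4 : |t| ^ (2 : ℝ) = t ^ 2 := by norm_num
    rw [e4]
    have hn2 : (0:ℝ) < t ^ 2 := by rw [← sq_abs]; positivity
    have e5 : Real.exp (-(t ^ 2 / x)) ≤ x * (t ^ 2)⁻¹ := by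
      have h6 : t ^ 2 / x ≤ Real.exp (t ^ 2 / x) := by
        have := Real.add_one_le_exp (t ^ 2 / x); linarith
      rw [Real.exp_neg, show x * (t ^ 2)⁻¹ = (t ^ 2 / x)⁻¹ by field_simp]
      exact inv_anti₀ (by positivity) h6
    refine e1.trans ?_
    rw [mul_assoc]
    exact mul_le_mul_of_nonneg_left e5 hC0
  have hF : ∀ n : ℤ, 𝓕 (fun t : ℝ => (Phi (t ^ 2 / x) : ℂ)) n = ((√x * Psh (n * √x) : ℝ) : ℂ) :=
    fun n => fourier_Phix hx n
  have hsum : Summable fun n : ℤ => 𝓕 (fun t : ℝ => (Phi (t ^ 2 / x) : ℂ)) n := by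
    simp_rw [hF]
    exact Complex.ofRealCLM.summable (Psh_summable hx)
  have h := Real.tsum_eq_tsum_fourier_of_rpow_decay_of_summable hf (b := 2) (by norm_num) hO hsum 0
  have h1 : ∑' n : ℤ, ((Phi ((n : ℝ) ^ 2 / x) : ℝ) : ℂ) = ∑' n : ℤ, ((√x * Psh (n * √x) : ℝ) : ℂ) := by
    have e1 : ∀ n : ℤ, 𝓕 (fun t : ℝ => (Phi (t ^ 2 / x) : ℂ)) n * fourier n ((0:ℝ) : UnitAddCircle) =
        ((√x * Psh (n * √x) : ℝ) : ℂ) := by
      intro n
      rw [hF]
      have : fourier n ((0:ℝ) : UnitAddCircle) = 1 := by simp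
      rw [this, mul_one]
    simp_rw [e1] at h
    simpa using h
  rw [← Complex.ofReal_tsum, ← Complex.ofReal_tsum] at h1
  have h2 : ∑' n : ℤ, Phi ((n : ℝ) ^ 2 / x) = ∑' n : ℤ, √x * Psh (n * √x) := by exact_mod_cast h1
  rw [tsum_int_eq_zero_add_two_mul_tsum_pnat (f := fun n : ℤ => Phi ((n : ℝ) ^ 2 / x)) (fun n => by simp) (Phix_summable hx),
    tsum_int_eq_zero_add_two_mul_tsum_pnat (f := fun n : ℤ => √x * Psh (n * √x)) (fun n => by
      simp only [Int.cast_neg, neg_mul, Psh_even]) (Psh_summable hx)] at h2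
  have e0 : Phi (((0 : ℤ) : ℝ) ^ 2 / x) = -1 := by unfold Phi; simp
  have e1 : √x * Psh (((0 : ℤ) : ℝ) * √x) = √x * Psh 0 := by simp
  have e2 : ∑' m : ℕ+, √x * Psh ((((m : ℕ) : ℤ) : ℝ) * √x) = ∑' m : ℕ+, Gt (m * √x) / m := by
    apply tsum_congr
    intro m
    rw [← Psh_term hx]
    simp
  have e3 : ∑' j : ℕ+, Phi ((((j : ℕ) : ℤ) : ℝ) ^ 2 / x) = ∑' j : ℕ+, Phi (((j : ℕ) : ℝ) ^ 2 / x) := by
    apply tsum_congr
    intro m
    simp
  simp only [nsmul_eq_mul] at h2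
  rw [e0, e1, e2, e3] at h2
  push_cast at h2
  linarith

end Pool.Agent.Helper71.LA
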