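import Pool.Agent.Helper71.LA.Fres2
import Pool.Agent.Helper71.MR.Self

open Complex Filter Topology MeasureTheory Set
open scoped FourierTransform
open Pool.Agent.Helper18.ES (kap)
open Pool.Agent.Helper71.MR (kap_fourier kap_int kap_even kap_zero_int)

namespace Pool.Agent.Helper71.LA

theorem kap_cont : Continuous kap := by unfold kap; fun_prop

/-- exponential bound for the Gaussian kernel -/
theorem kap_exp : ∃ C : ℝ, 0 ≤ C ∧ ∀ u : ℝ, |kap u| ≤ C * Real.exp (-|u|) := by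
  have hpi := Real.pi_pos
  refine ⟨(8 * Real.pi ^ 2 + 6 * Real.pi) * Real.exp 1, by positivity, fun u => ?_⟩
  unfold kap
  rw [abs_mul, abs_of_pos (Real.exp_pos _)]
  have h1 : u ^ 2 ≤ Real.exp (u ^ 2) := by
    have := Real.add_one_le_exp (u ^ 2); linarith
  have h2 : u ^ 4 ≤ 2 * Real.exp (u ^ 2) := by
    have := Real.quadratic_le_exp_of_nonneg (x := u ^ 2) (by positivity)
    nlinarith [sq_nonneg u]
  have h3 : |4 * Real.pi ^ 2 * u ^ 4 - 6 * Real.pi * u ^ 2| ≤ (8 * Real.pi ^ 2 + 6 * Real.pi) * Real.exp (u ^ 2) := by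
    refine (abs_sub _ _).trans ?_
    rw [abs_of_nonneg (by positivity), abs_of_nonneg (by positivity)]
    have h4 : 4 * Real.pi ^ 2 * u ^ 4 ≤ 4 * Real.pi ^ 2 * (2 * Real.exp (u ^ 2)) :=
      mul_le_mul_of_nonneg_left h2 (by positivity)
    have h5 : 6 * Real.pi * u ^ 2 ≤ 6 * Real.pi * Real.exp (u ^ 2) :=
      mul_le_mul_of_nonneg_left h1 (by positivity)
    linarith
  calc |4 * Real.pi ^ 2 * u ^ 4 - 6 * Real.pi * u ^ 2| * Real.exp (-(Real.pi * u ^ 2))
      ≤ ((8 * Real.pi ^ 2 + 6 * Real.pi) * Real.exp (u ^ 2)) * Real.exp (-(Real.pi * u ^ 2)) :=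
        mul_le_mul_of_nonneg_right h3 (Real.exp_pos _).le
    _ = (8 * Real.pi ^ 2 + 6 * Real.pi) * Real.exp (u ^ 2 + -(Real.pi * u ^ 2)) := by
        rw [Real.exp_add]; ring
    _ ≤ (8 * Real.pi ^ 2 + 6 * Real.pi) * Real.exp (1 + -|u|) := by
        apply mul_le_mul_of_nonneg_left _ (by positivity)
        apply Real.exp_le_exp.mpr
        have h6 := Real.pi_gt_three
        have h7 : |u| ≤ 1 + u ^ 2 := by
          have := sq_abs u
          nlinarith [sq_nonneg (|u| - 1), abs_nonneg u]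
        nlinarith [sq_nonneg u]
    _ = _ := by rw [Real.exp_add]; ring

theorem kapsq_int : Integrable (fun t : ℝ => kap (t ^ 2)) := by
  obtain ⟨C, hC0, hC⟩ := kap_exp
  have h := (integrable_exp_neg_mul_sq (b := 1) one_pos).const_mul C
  refine Integrable.mono' h ?_ ?_
  · apply Continuous.aestronglyMeasurable
    have := kap_cont
    fun_prop
  · filter_upwards with t
    rw [Real.norm_eq_abs]
    have := hC (t ^ 2)
    rw [abs_of_nonneg (sq_nonneg t)] at this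
    rwa [show -1 * t ^ 2 = -t ^ 2 by ring]

theorem rt_exp_int : IntegrableOn (fun s : ℝ => s ^ (-(1 / 2) : ℝ) * Real.exp (-s)) (Ioi 0) := by
  have h := Real.GammaIntegral_convergent (s := 1 / 2) (by norm_num)
  refine h.congr_fun ?_ measurableSet_Ioi
  intro s _
  simp only
  rw [show (1 / 2 - 1 : ℝ) = -(1 / 2) by norm_num]; ring

theorem rt_exp_int_abs : Integrable (fun s : ℝ => |s| ^ (-(1 / 2) : ℝ) * Real.exp (-|s|)) := by
  have h := rt_exp_int
  have h2 : IntegrableOn (fun s : ℝ => |s| ^ (-(1 / 2) : ℝ) * Real.exp (-|s|)) (Ioi 0) := by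
    refine h.congr_fun ?_ measurableSet_Ioi
    intro s hs
    have hs0 : (0:ℝ) < s := hs
    simp only
    rw [abs_of_pos hs0]
  have h3 : IntegrableOn (fun s : ℝ => |s| ^ (-(1 / 2) : ℝ) * Real.exp (-|s|)) (Iic 0) := by
    have h4 := (integrable_indicator_iff measurableSet_Ioi).mpr h2
    have h5 := h4.comp_neg
    rw [integrableOn_Iic_iff_integrableOn_Iio]
    rw [← integrable_indicator_iff measurableSet_Iio]
    refine h5.congr ?_
    filter_upwards with s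
    by_cases hs : s < 0
    · rw [indicator_of_mem (show -s ∈ Ioi (0:ℝ) by simpa using hs), indicator_of_mem (show s ∈ Iio (0:ℝ) from hs),
        abs_neg]
    · rw [indicator_of_notMem (show -s ∉ Ioi (0:ℝ) by simpa using hs),
        indicator_of_notMem (show s ∉ Iio (0:ℝ) from hs)]
  rw [← integrableOn_univ, ← Iic_union_Ioi (a := (0:ℝ))]
  exact h3.union h2

/-- transform of the damped Gaussian phase -/
noncomputable def X (ζ ε s : ℝ) : ℂ :=
  1 / ((ε : ℂ) + 2 * Complex.I * s) ^ (2⁻¹ : ℂ) * cexp (-Real.pi / ((ε : ℂ) + 2 * Complex.I * s) * (ζ : ℂ) ^ 2)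

theorem b_re (ε s : ℝ) : ((ε : ℂ) + 2 * Complex.I * s).re = ε := by simp
theorem b_im (ε s : ℝ) : ((ε : ℂ) + 2 * Complex.I * s).im = 2 * s := by simp

theorem X_eq {ζ ε s : ℝ} (hε : 0 < ε) :
    ∫ t : ℝ, cexp (-(2 * Real.pi * Complex.I * ζ * t)) * cexp (-Real.pi * ((ε : ℂ) + 2 * Complex.I * s) * (t : ℂ) ^ 2) = X ζ ε s := by
  have hb : 0 < ((ε : ℂ) + 2 * Complex.I * s).re := by rw [b_re]; exact hε
  have h := congrFun (fourier_gaussian_pi hb) ζ
  rw [Real.fourier_real_eq_integral_exp_smul] at h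
  unfold X
  rw [show (2⁻¹ : ℂ) = 1 / 2 by norm_num, ← h]
  apply integral_congr_ae
  filter_upwards with t
  rw [smul_eq_mul]
  congr 2
  push_cast; ring

theorem X_bd {ζ ε s : ℝ} (hε : 0 ≤ ε) (hs : s ≠ 0) : ‖X ζ ε s‖ ≤ |s| ^ (-(1 / 2) : ℝ) := by
  unfold X
  set b : ℂ := (ε : ℂ) + 2 * Complex.I * s with hb
  have him : b.im = 2 * s := b_im ε s
  have hre : b.re = ε := b_re ε s
  have hsa : 0 < |s| := abs_pos.mpr hs
  have hn : |s| ≤ ‖b‖ := by
    have := Complex.abs_im_le_norm b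
    rw [him, abs_mul, abs_two] at this
    linarith
  rw [norm_mul, norm_div, norm_one]
  have h1 : ‖b ^ (2⁻¹ : ℂ)‖ = ‖b‖ ^ (2⁻¹ : ℝ) := by
    have := Complex.norm_cpow_inv_nat b 2
    simpa using this
  have h2 : ‖cexp (-Real.pi / b * (ζ : ℂ) ^ 2)‖ ≤ 1 := by
    rw [Complex.norm_exp]
    apply Real.exp_le_one_iff.mpr
    have h3 : (-Real.pi / b * (ζ : ℂ) ^ 2) = ((-(Real.pi * ζ ^ 2) : ℝ) : ℂ) * b⁻¹ := by
      push_cast; rw [div_eq_mul_inv]; ring
    rw [h3, Complex.re_ofReal_mul, Complex.inv_re, hre]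
    have h4 : 0 ≤ ε / Complex.normSq b := div_nonneg hε (Complex.normSq_nonneg b)
    have h5 : 0 ≤ Real.pi * ζ ^ 2 := by have := Real.pi_pos; positivity
    nlinarith
  rw [h1]
  have h4 : 1 / ‖b‖ ^ (2⁻¹ : ℝ) ≤ |s| ^ (-(1 / 2) : ℝ) := by
    rw [Real.rpow_neg hsa.le, one_div, show (1 / 2 : ℝ) = 2⁻¹ by norm_num]
    apply inv_anti₀ (Real.rpow_pos_of_pos hsa _)
    exact Real.rpow_le_rpow hsa.le hn (by norm_num)
  have h6 : 0 ≤ 1 / ‖b‖ ^ (2⁻¹ : ℝ) := by positivity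
  calc 1 / ‖b‖ ^ (2⁻¹ : ℝ) * ‖cexp (-Real.pi / b * (ζ : ℂ) ^ 2)‖ ≤ 1 / ‖b‖ ^ (2⁻¹ : ℝ) * 1 :=
        mul_le_mul_of_nonneg_left h2 h6
    _ ≤ _ := by rw [mul_one]; exact h4

theorem X_cont {ζ s : ℝ} (hs : s ≠ 0) : Tendsto (fun ε => X ζ ε s) (𝓝[>] 0) (𝓝 (X ζ 0 s)) := by
  have hc : ContinuousAt (fun ε : ℝ => X ζ ε s) 0 := by
    unfold X
    have hne : (((0:ℝ) : ℂ) + 2 * Complex.I * s) ≠ 0 := by
      intro h
      have := congrArg Complex.im h
      rw [b_im] at this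
      simp at this
      exact hs this
    have h1 : ContinuousAt (fun ε : ℝ => ((ε : ℂ) + 2 * Complex.I * s) ^ (2⁻¹ : ℂ)) 0 := by
      apply ContinuousAt.cpow (by fun_prop) continuousAt_const
      right
      rw [b_im]
      simpa using hs
    apply ContinuousAt.mul
    · apply ContinuousAt.div continuousAt_const h1
      intro h
      rw [Complex.cpow_eq_zero_iff] at h
      exact hne h.1
    · apply Complex.continuous_exp.continuousAt.comp
      apply ContinuousAt.mul _ continuousAt_const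
      exact ContinuousAt.div continuousAt_const (by fun_prop) hne
  exact hc.tendsto.mono_left nhdsWithin_le_nhds

theorem X_re {ζ s : ℝ} (hs : s ≠ 0) : (X ζ 0 s).re = cs (ζ / √|s|) / (2 * √|s|) := by
  have hsa : 0 < |s| := abs_pos.mpr hs
  set r : ℝ := √|s| with hr
  have hr0 : 0 < r := Real.sqrt_pos.mpr hsa
  have hr2 : r ^ 2 = |s| := Real.sq_sqrt hsa.le
  -- sign
  obtain ⟨σ, hσ, hσs⟩ : ∃ σ : ℝ, (σ = 1 ∨ σ = -1) ∧ s = σ * r ^ 2 := by
    rcases lt_or_gt_of_ne hs with h | h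
    · exact ⟨-1, Or.inr rfl, by rw [hr2, abs_of_neg h]; ring⟩
    · exact ⟨1, Or.inl rfl, by rw [hr2, abs_of_pos h]; ring⟩
  have hσ2 : σ ^ 2 = 1 := by rcases hσ with h | h <;> rw [h] <;> norm_num
  have hσc : (σ : ℂ) ^ 2 = 1 := by exact_mod_cast hσ2
  have hI := Complex.I_sq
  have hb : (((0:ℝ) : ℂ) + 2 * Complex.I * s) = ((1 + σ * Complex.I) * r) ^ 2 := by
    rw [hσs]
    push_cast
    linear_combination (-(r : ℂ) ^ 2 * σ ^ 2) * hI + (r : ℂ) ^ 2 * hσc
  have hpow : (((0:ℝ) : ℂ) + 2 * Complex.I * s) ^ (2⁻¹ : ℂ) = (1 + σ * Complex.I) * r := by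
    rw [hb]
    apply Complex.sq_cpow_two_inv
    simp [hr0]
  unfold X
  rw [hpow, hb]
  have hrc : (r : ℂ) ≠ 0 := by exact_mod_cast hr0.ne'
  have h1s : (1 + σ * Complex.I : ℂ) ≠ 0 := by
    intro h
    have := congrArg Complex.re h
    simp at this
  have e1 : 1 / ((1 + σ * Complex.I) * (r : ℂ)) = (1 - σ * Complex.I) / (2 * r) := by
    rw [div_eq_div_iff (mul_ne_zero h1s hrc) (mul_ne_zero two_ne_zero hrc)]
    linear_combination ((r : ℂ) * σ ^ 2) * hI - (r : ℂ) * hσc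
  have e2 : -(Real.pi : ℂ) / ((1 + σ * Complex.I) * r) ^ 2 * (ζ : ℂ) ^ 2 =
      ((Real.pi * (ζ / r) ^ 2 / 2 : ℝ) : ℂ) * (σ * Complex.I) := by
    push_cast
    rw [mul_pow]
    have h2 : (1 + σ * Complex.I : ℂ) ^ 2 = 2 * σ * Complex.I := by
      linear_combination (σ ^ 2 : ℂ) * hI - hσc
    rw [h2]
    have hσ0 : (σ : ℂ) ≠ 0 := by
      intro h; rw [h] at hσc; norm_num at hσc
    have hI0 := Complex.I_ne_zero
    field_simp
    linear_combination (-((ζ : ℂ) ^ 2 * σ ^ 2)) * hI + ((ζ : ℂ) ^ 2) * hσc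
  rw [e1, e2]
  unfold cs
  set θ : ℝ := Real.pi * (ζ / r) ^ 2 / 2 with hθ
  rcases hσ with h | h
  · rw [h]
    have e3 : ((1:ℝ) : ℂ) * Complex.I = Complex.I := by simp
    rw [e3, Complex.exp_mul_I, ← Complex.ofReal_cos, ← Complex.ofReal_sin]
    have e4 : (1 - Complex.I) / (2 * (r : ℂ)) * ((Real.cos θ : ℝ) + (Real.sin θ : ℝ) * Complex.I) =
      (((Real.cos θ + Real.sin θ) / (2 * r) : ℝ) : ℂ) + (((Real.sin θ - Real.cos θ) / (2 * r) : ℝ) : ℂ) * Complex.I := by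
      push_cast
      field_simp
      linear_combination (-(Complex.sin (θ:ℂ))) * hI
    rw [e4, Complex.add_re, Complex.ofReal_re, Complex.re_ofReal_mul, Complex.I_re, mul_zero, add_zero]
  · rw [h]
    have e3 : ((-1:ℝ) : ℂ) * Complex.I = -Complex.I := by simp
    rw [e3, mul_neg, ← neg_mul, Complex.exp_mul_I, Complex.cos_neg, Complex.sin_neg, ← Complex.ofReal_cos, ← Complex.ofReal_sin]
    have e4 : (1 - -Complex.I) / (2 * (r : ℂ)) * ((Real.cos θ : ℝ) + -(Real.sin θ : ℝ) * Complex.I) =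
      (((Real.cos θ + Real.sin θ) / (2 * r) : ℝ) : ℂ) + (((Real.cos θ - Real.sin θ) / (2 * r) : ℝ) : ℂ) * Complex.I := by
      push_cast
      field_simp
      linear_combination (-(Complex.sin (θ:ℂ))) * hI
    rw [e4, Complex.add_re, Complex.ofReal_re, Complex.re_ofReal_mul, Complex.I_re, mul_zero, add_zero]

end Pool.Agent.Helper71.LA
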