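import Pool.Agent.Helper71.LA.Quart

open Complex Filter Topology MeasureTheory Set
open scoped FourierTransform
open Pool.Agent.Helper18.ES (kap)
open Pool.Agent.Helper71.MR (kap_fourier kap_int kap_even kap_zero_int)

namespace Pool.Agent.Helper71.LA

theorem norm_phase (ζ t : ℝ) : ‖cexp (-(2 * Real.pi * Complex.I * ζ * t))‖ = 1 := by
  have : (-(2 * Real.pi * Complex.I * ζ * t) : ℂ) = ((-(2 * Real.pi * ζ * t) : ℝ) : ℂ) * Complex.I := by
    push_cast; ring
  rw [this, Complex.norm_exp_ofReal_mul_I]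

theorem gauss_int {ε : ℝ} (hε : 0 < ε) : Integrable (fun t : ℝ => Real.exp (-(Real.pi * ε * t ^ 2))) := by
  have h := integrable_exp_neg_mul_sq (b := Real.pi * ε) (by have := Real.pi_pos; positivity)
  refine h.congr ?_
  filter_upwards with t
  congr 1; ring

theorem stepA {ε : ℝ} (hε : 0 < ε) (ζ : ℝ) :
    ∫ t : ℝ, cexp (-(2 * Real.pi * Complex.I * ζ * t)) * (kap (t ^ 2) : ℂ) *
      ((Real.exp (-(Real.pi * ε * t ^ 2)) : ℝ) : ℂ) = ∫ s : ℝ, (kap s : ℂ) * X ζ ε s := by
  have hkap : ∀ t : ℝ, (kap (t ^ 2) : ℂ) = ∫ s : ℝ, cexp (-(2 * Real.pi * Complex.I * s * (t : ℂ) ^ 2)) * (kap s : ℂ) := by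
    intro t
    rw [← kap_fourier, Real.fourier_real_eq_integral_exp_smul]
    apply integral_congr_ae
    filter_upwards with s
    rw [smul_eq_mul]
    congr 2
    push_cast; ring
  have hint : Integrable (Function.uncurry fun t s : ℝ => cexp (-(2 * Real.pi * Complex.I * ζ * t)) *
      (cexp (-(2 * Real.pi * Complex.I * s * (t : ℂ) ^ 2)) * (kap s : ℂ)) *
      ((Real.exp (-(Real.pi * ε * t ^ 2)) : ℝ) : ℂ)) (volume.prod volume) := by
    have h1 : Integrable (fun p : ℝ × ℝ => Real.exp (-(Real.pi * ε * p.1 ^ 2)) * |kap p.2|) (volume.prod volume) :=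
      Integrable.mul_prod (f := fun t : ℝ => Real.exp (-(Real.pi * ε * t ^ 2))) (g := fun s : ℝ => |kap s|)
        (gauss_int hε) kap_int.abs
    refine Integrable.mono' h1 ?_ ?_
    · apply Continuous.aestronglyMeasurable
      simp only [Function.uncurry_def]
      have := kap_cont
      fun_prop
    · filter_upwards with p
      simp only [Function.uncurry_def]
      have h2 : (-(2 * Real.pi * Complex.I * p.2 * (p.1 : ℂ) ^ 2) : ℂ) = -(2 * Real.pi * Complex.I * p.2 * ((p.1 ^ 2 : ℝ) : ℂ)) := by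
        push_cast; ring
      rw [norm_mul, norm_mul, norm_mul, norm_phase, h2, norm_phase, Complex.norm_real, Complex.norm_real,
        Real.norm_of_nonneg (Real.exp_pos _).le, Real.norm_eq_abs]
      apply le_of_eq; ring
  calc ∫ t : ℝ, cexp (-(2 * Real.pi * Complex.I * ζ * t)) * (kap (t ^ 2) : ℂ) *
        ((Real.exp (-(Real.pi * ε * t ^ 2)) : ℝ) : ℂ)
      = ∫ t : ℝ, ∫ s : ℝ, cexp (-(2 * Real.pi * Complex.I * ζ * t)) *
      (cexp (-(2 * Real.pi * Complex.I * s * (t : ℂ) ^ 2)) * (kap s : ℂ)) *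
      ((Real.exp (-(Real.pi * ε * t ^ 2)) : ℝ) : ℂ) := by
        apply integral_congr_ae
        filter_upwards with t
        rw [integral_mul_const, integral_const_mul, ← hkap]
    _ = ∫ s : ℝ, ∫ t : ℝ, cexp (-(2 * Real.pi * Complex.I * ζ * t)) *
      (cexp (-(2 * Real.pi * Complex.I * s * (t : ℂ) ^ 2)) * (kap s : ℂ)) *
      ((Real.exp (-(Real.pi * ε * t ^ 2)) : ℝ) : ℂ) := integral_integral_swap hint
    _ = _ := by
        apply integral_congr_ae
        filter_upwards with s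
        rw [← X_eq hε, ← integral_const_mul]
        apply integral_congr_ae
        filter_upwards with t
        have h3 : cexp (-Real.pi * ((ε : ℂ) + 2 * Complex.I * s) * (t : ℂ) ^ 2) =
            cexp (-(2 * Real.pi * Complex.I * s * (t : ℂ) ^ 2)) * ((Real.exp (-(Real.pi * ε * t ^ 2)) : ℝ) : ℂ) := by
          rw [Complex.ofReal_exp, ← Complex.exp_add]
          congr 1
          push_cast; ring
        rw [h3]; ring

theorem kapX_int (ζ : ℝ) {C : ℝ} (hC0 : 0 ≤ C) (hC : ∀ u : ℝ, |kap u| ≤ C * Real.exp (-|u|)) {ε : ℝ} (hε : 0 ≤ ε) {s : ℝ}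
    (hs : s ≠ 0) : ‖(kap s : ℂ) * X ζ ε s‖ ≤ C * (|s| ^ (-(1 / 2) : ℝ) * Real.exp (-|s|)) := by
  rw [norm_mul, Complex.norm_real, Real.norm_eq_abs]
  have h1 := hC s
  have h2 := X_bd (ζ := ζ) hε hs
  calc |kap s| * ‖X ζ ε s‖ ≤ (C * Real.exp (-|s|)) * |s| ^ (-(1 / 2) : ℝ) :=
        mul_le_mul h1 h2 (norm_nonneg _) (by positivity)
    _ = _ := by ring

theorem X_meas (ζ ε : ℝ) : Measurable (X ζ ε) := by
  unfold X
  fun_prop

theorem stepB (ζ : ℝ) :
    ∫ t : ℝ, cexp (-(2 * Real.pi * Complex.I * ζ * t)) * (kap (t ^ 2) : ℂ) = ∫ s : ℝ, (kap s : ℂ) * X ζ 0 s := by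
  obtain ⟨C, hC0, hC⟩ := kap_exp
  have hne : ∀ᵐ s : ℝ, s ≠ 0 := by
    have : (volume : Measure ℝ) {0} = 0 := Real.volume_singleton
    exact compl_mem_ae_iff.mpr this
  have l1 : Tendsto (fun ε : ℝ => ∫ t : ℝ, cexp (-(2 * Real.pi * Complex.I * ζ * t)) * (kap (t ^ 2) : ℂ) *
      ((Real.exp (-(Real.pi * ε * t ^ 2)) : ℝ) : ℂ)) (𝓝[>] 0)
      (𝓝 (∫ t : ℝ, cexp (-(2 * Real.pi * Complex.I * ζ * t)) * (kap (t ^ 2) : ℂ))) := by
    apply tendsto_integral_filter_of_dominated_convergence (fun t => |kap (t ^ 2)|)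
    · apply Eventually.of_forall
      intro ε
      apply Continuous.aestronglyMeasurable
      have := kap_cont
      fun_prop
    · filter_upwards [self_mem_nhdsWithin] with ε hε
      have hε0 : 0 < ε := hε
      filter_upwards with t
      rw [norm_mul, norm_mul, norm_phase, Complex.norm_real, Complex.norm_real,
        Real.norm_of_nonneg (Real.exp_pos _).le, Real.norm_eq_abs, one_mul]
      have : Real.exp (-(Real.pi * ε * t ^ 2)) ≤ 1 := by
        apply Real.exp_le_one_iff.mpr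
        have := Real.pi_pos
        have : 0 ≤ Real.pi * ε * t ^ 2 := by positivity
        linarith
      nlinarith [abs_nonneg (kap (t ^ 2))]
    · exact kapsq_int.abs
    · filter_upwards with t
      have h : Tendsto (fun ε : ℝ => cexp (-(2 * Real.pi * Complex.I * ζ * t)) * (kap (t ^ 2) : ℂ) *
          ((Real.exp (-(Real.pi * ε * t ^ 2)) : ℝ) : ℂ)) (𝓝 0)
          (𝓝 (cexp (-(2 * Real.pi * Complex.I * ζ * t)) * (kap (t ^ 2) : ℂ) *
          ((Real.exp (-(Real.pi * 0 * t ^ 2)) : ℝ) : ℂ))) := by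
        apply Continuous.tendsto
        fun_prop
      have e : ((Real.exp (-(Real.pi * 0 * t ^ 2)) : ℝ) : ℂ) = 1 := by simp
      rw [e, mul_one] at h
      exact h.mono_left nhdsWithin_le_nhds
  have l2 : Tendsto (fun ε : ℝ => ∫ s : ℝ, (kap s : ℂ) * X ζ ε s) (𝓝[>] 0) (𝓝 (∫ s : ℝ, (kap s : ℂ) * X ζ 0 s)) := by
    apply tendsto_integral_filter_of_dominated_convergence (fun s => C * (|s| ^ (-(1 / 2) : ℝ) * Real.exp (-|s|)))
    · apply Eventually.of_forall
      intro ε
      apply Measurable.aestronglyMeasurable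
      have := kap_cont.measurable
      have := X_meas ζ ε
      fun_prop
    · filter_upwards [self_mem_nhdsWithin] with ε hε
      have hε0 : 0 < ε := hε
      filter_upwards [hne] with s hs
      exact kapX_int ζ hC0 hC hε0.le hs
    · exact rt_exp_int_abs.const_mul C
    · filter_upwards [hne] with s hs
      exact (X_cont hs).const_mul _
  have l3 : Tendsto (fun ε : ℝ => ∫ t : ℝ, cexp (-(2 * Real.pi * Complex.I * ζ * t)) * (kap (t ^ 2) : ℂ) *
      ((Real.exp (-(Real.pi * ε * t ^ 2)) : ℝ) : ℂ)) (𝓝[>] 0) (𝓝 (∫ s : ℝ, (kap s : ℂ) * X ζ 0 s)) := by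
    apply l2.congr'
    filter_upwards [self_mem_nhdsWithin] with ε hε
    exact (stepA hε ζ).symm
  exact tendsto_nhds_unique l1 l3

/-- the quartic transform of the kernel, in Fresnel form -/
noncomputable def Ah (ζ : ℝ) : ℝ := ∫ t : ℝ, kap (t ^ 2) * Real.cos (2 * Real.pi * ζ * t)

theorem quart (ζ : ℝ) : Ah ζ = ∫ s in Ioi (0:ℝ), kap s * (cs (ζ / √s) / √s) := by
  obtain ⟨C, hC0, hC⟩ := kap_exp
  have hne : ∀ᵐ s : ℝ, s ≠ 0 := by
    have : (volume : Measure ℝ) {0} = 0 := Real.volume_singleton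
    exact compl_mem_ae_iff.mpr this
  have h := stepB ζ
  have i1 : Integrable (fun t : ℝ => cexp (-(2 * Real.pi * Complex.I * ζ * t)) * (kap (t ^ 2) : ℂ)) := by
    refine Integrable.mono' kapsq_int.abs ?_ ?_
    · apply Continuous.aestronglyMeasurable
      have := kap_cont
      fun_prop
    · filter_upwards with t
      rw [norm_mul, norm_phase, Complex.norm_real, Real.norm_eq_abs, one_mul]
  have i2 : Integrable (fun s : ℝ => (kap s : ℂ) * X ζ 0 s) := by
    refine Integrable.mono' (rt_exp_int_abs.const_mul C) ?_ ?_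
    · apply Measurable.aestronglyMeasurable
      have := kap_cont.measurable
      have := X_meas ζ 0
      fun_prop
    · filter_upwards [hne] with s hs
      exact kapX_int ζ hC0 hC le_rfl hs
  have h1 := integral_re i1
  have h2 := integral_re i2
  simp only [RCLike.re_to_complex] at h1 h2
  rw [h, ← h2] at h1
  have e1 : ∫ t : ℝ, (cexp (-(2 * Real.pi * Complex.I * ζ * t)) * (kap (t ^ 2) : ℂ)).re = Ah ζ := by
    unfold Ah
    apply integral_congr_ae
    filter_upwards with t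
    have : (-(2 * Real.pi * Complex.I * ζ * t) : ℂ) = ((-(2 * Real.pi * ζ * t) : ℝ) : ℂ) * Complex.I := by
      push_cast; ring
    rw [this, Complex.re_mul_ofReal, Complex.exp_ofReal_mul_I_re, Real.cos_neg, mul_comm]
  have e2 : ∫ s : ℝ, ((kap s : ℂ) * X ζ 0 s).re = ∫ s : ℝ, (fun s => kap s * (cs (ζ / √s) / (2 * √s))) |s| := by
    apply integral_congr_ae
    filter_upwards [hne] with s hs
    rw [Complex.re_ofReal_mul, X_re hs]
    rcases abs_choice s with h | h
    · rw [h]
    · rw [h, kap_even]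
  rw [e1, e2, integral_comp_abs (f := fun s => kap s * (cs (ζ / √s) / (2 * √s))), ← integral_const_mul] at h1
  rw [h1]
  apply setIntegral_congr_fun measurableSet_Ioi
  intro s hs
  have hs0 : (0:ℝ) < s := hs
  have := Real.sqrt_pos.mpr hs0
  simp only
  field_simp

end Pool.Agent.Helper71.LA
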